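import Pool.Agent.Lib.MP_a9d09b_co.Defs

/-!
Facts about the bias: it is a positive real number, restriction of a tensor to subtensors does
not decrease it, and its value for identity tensors.
-/

namespace Pool.Agent.Lib.MP_a9d09b_co

open Finset

section General

variable {p : ℕ} [Fact p.Prime]

/-- the standard character -/
noncomputable def ee (a : ZMod p) : ℂ := ZMod.stdAddChar a

lemma exp_eq_ee (a : ZMod p) :
    Complex.exp (2 * Real.pi * Complex.I * ((a.val : ℕ) : ℂ) / (p : ℂ)) = ee a := by
  have h := ZMod.stdAddChar_coe (N := p) (a.val : ℤ)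
  have h2 : (((a.val : ℕ) : ℤ) : ZMod p) = a := by
    rw [Int.cast_natCast, ZMod.natCast_zmod_val]
  rw [h2] at h
  unfold ee
  rw [h]
  norm_cast

/-- orthogonality -/
lemma sum_hom {G : Type*} [AddCommGroup G] [Fintype G] (f : G →+ ZMod p) :
    ∑ g, ee (f g) = if ∀ g, f g = 0 then (Fintype.card G : ℂ) else 0 := by
  classical
  have h := AddChar.sum_eq_ite (R := ℂ) ((ZMod.stdAddChar (N := p)).compAddMonoidHom f)
  have h1 : ∑ g, ee (f g) = ∑ g, ((ZMod.stdAddChar (N := p)).compAddMonoidHom f) g := rfl
  rw [h1, h]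
  congr 1
  apply propext
  constructor
  · intro h0 g
    have h2 : ZMod.stdAddChar (f g) = (1 : ℂ) := by
      have := DFunLike.congr_fun h0 g
      simpa using this
    apply ZMod.injective_stdAddChar (N := p)
    rw [h2]
    simp
  · intro h0
    ext g
    simp [h0 g]

lemma ite_aux (P : Prop) (i1 i2 : Decidable P) (c : ℂ) :
    @ite ℂ P i1 c 0 = c * @ite ℂ P i2 1 0 := by
  by_cases h : P
  · rw [if_pos h, if_pos h, mul_one]
  · rw [if_neg h, if_neg h, mul_zero]

/-- resampling one coordinate -/
lemma sum_update {R : Type*} [Semiring R] {d : ℕ} {V : Type*} [Fintype V] (i : Fin d)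
    (Φ : (Fin d → V) → R) :
    ∑ X : Fin d → V, ∑ g : V, Φ (Function.update X i g) = (Fintype.card V : R) * ∑ X, Φ X := by
  classical
  let σ : ((Fin d → V) × V) → ((Fin d → V) × V) := fun x => (Function.update x.1 i x.2, x.1 i)
  have hσ : Function.Involutive σ := by
    rintro ⟨X, g⟩
    simp [σ]
  have h1 : ∑ x : (Fin d → V) × V, Φ (σ x).1 = ∑ x : (Fin d → V) × V, Φ x.1 :=
    Equiv.sum_comp hσ.toPerm (fun x => Φ x.1)
  rw [Fintype.sum_prod_type, Fintype.sum_prod_type] at h1
  simp only [σ] at h1
  rw [h1, mul_sum]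
  apply sum_congr rfl
  intro X _
  simp

lemma sum_update' {R : Type*} [Semiring R] {d : ℕ} {V : Type*} [Fintype V] (i : Fin d)
    (Φ : (Fin d → V) → R) :
    (Fintype.card V : R) * ∑ X, Φ X = ∑ X : Fin d → V, ∑ g : V, Φ (Function.update X i g) :=
  (sum_update i Φ).symm

end General

section Form

variable {F : Type*} [CommRing F] {d : ℕ} {ι : Type*} [Fintype ι]

/-- additivity of the form in the coordinate `i` -/
def formHom (A : Tensor F d ι) (X : Fin d → ι → F) (i : Fin d) : (ι → F) →+ F where
  toFun g := form A (Function.update X i g)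
  map_zero' := by
    unfold form
    apply sum_eq_zero
    intro I _
    rw [prod_eq_zero (mem_univ i), mul_zero]
    rw [Function.update_self]
    rfl
  map_add' g h := by
    unfold form
    rw [← sum_add_distrib]
    apply sum_congr rfl
    intro I _
    rw [← mul_add]
    congr 1
    rw [← mul_prod_erase univ _ (mem_univ i), ← mul_prod_erase univ _ (mem_univ i),
      ← mul_prod_erase univ (fun j => (Function.update X i h) j (I j)) (mem_univ i)]
    simp only [Function.update_self, Pi.add_apply]
    have hc : ∀ k : ι → F, ∏ x ∈ univ.erase i, Function.update X i k x (I x) =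
        ∏ x ∈ univ.erase i, X x (I x) := by
      intro k
      apply prod_congr rfl
      intro x hx
      rw [Function.update_of_ne (ne_of_mem_erase hx)]
    rw [hc, hc, hc]
    ring

lemma formHom_apply (A : Tensor F d ι) (X : Fin d → ι → F) (i : Fin d) (g : ι → F) :
    formHom A X i g = form A (Function.update X i g) := rfl

/-- restriction of a tensor along index maps -/
def comap {D : Type*} (A : Tensor F d ι) (φ : Fin d → D → ι) : Tensor F d D :=
  fun z => A (fun i => φ i (z i))

/-- push a vector on `D` forward to a vector on `ι` -/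
def pushHom [DecidableEq ι] {D : Type*} [Fintype D] (f : D → ι) : (D → F) →+ (ι → F) where
  toFun y t := ∑ z, if f z = t then y z else 0
  map_zero' := by
    funext t
    simp
  map_add' x y := by
    funext t
    simp only [Pi.add_apply]
    rw [← sum_add_distrib]
    apply sum_congr rfl
    intro z _
    split_ifs <;> simp

lemma form_comap [DecidableEq ι] {D : Type*} [Fintype D] (A : Tensor F d ι)
    (φ : Fin d → D → ι) (Y : Fin d → D → F) :
    form (comap A φ) Y = form A (fun i => pushHom (φ i) (Y i)) := by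
  classical
  unfold form comap
  symm
  have h1 : ∀ I : Fin d → ι, ∏ j, (pushHom (φ j) (Y j) : ι → F) (I j) =
      ∑ z : Fin d → D, if (fun i => φ i (z i)) = I then ∏ j, Y j (z j) else 0 := by
    intro I
    have : ∀ j, (pushHom (φ j) (Y j) : ι → F) (I j) = ∑ z, if φ j z = I j then Y j z else 0 :=
      fun j => rfl
    simp_rw [this]
    rw [prod_univ_sum]
    rw [Fintype.piFinset_univ]
    apply sum_congr rfl
    intro z _
    by_cases hz : (fun i => φ i (z i)) = I
    · rw [if_pos hz]
      apply prod_congr rfl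
      intro j _
      rw [if_pos (congrFun hz j)]
    · rw [if_neg hz]
      obtain ⟨j, hj⟩ := Function.ne_iff.1 hz
      apply prod_eq_zero (mem_univ j)
      rw [if_neg hj]
  simp_rw [h1, mul_sum]
  rw [sum_comm]
  apply sum_congr rfl
  intro z _
  rw [sum_eq_single (fun i => φ i (z i))]
  · rw [if_pos rfl]
  · intro I _ hI
    rw [if_neg (fun h => hI h.symm), mul_zero]
  · intro h
    exact (h (mem_univ _)).elim

end Form

section Bias

variable {p : ℕ} [Fact p.Prime] {d : ℕ} {ι : Type*} [Fintype ι] [DecidableEq ι]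

lemma bias_eq (A : Tensor (ZMod p) d ι) :
    bias A = (∑ X : Fin d → ι → ZMod p, ee (form A X)) /
      (Fintype.card (Fin d → ι → ZMod p) : ℂ) := by
  unfold bias
  congr 1
  apply sum_congr rfl
  intro X _
  exact exp_eq_ee _

open Classical in
/-- The exponential sum counts the points at which the form vanishes identically in the `i`-th
variable. -/
lemma sum_ee_eq (A : Tensor (ZMod p) d ι) (i : Fin d) :
    ∑ X : Fin d → ι → ZMod p, ee (form A X) =
      ((univ.filter (fun X : Fin d → ι → ZMod p =>
        ∀ g, form A (Function.update X i g) = 0)).card : ℂ) := by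
  have hV : (Fintype.card (ι → ZMod p) : ℂ) ≠ 0 := by
    exact_mod_cast Fintype.card_ne_zero
  apply mul_left_cancel₀ hV
  rw [sum_update' i]
  have h : ∀ X : Fin d → ι → ZMod p, ∑ g, ee (form A (Function.update X i g)) =
      (Fintype.card (ι → ZMod p) : ℂ) *
        (if ∀ g, form A (Function.update X i g) = 0 then 1 else 0) := by
    intro X
    have h2 := sum_hom (formHom A X i)
    simp only [formHom_apply] at h2
    rw [h2]
    exact ite_aux _ _ _ _
  simp_rw [h]
  rw [← mul_sum]
  congr 1
  rw [sum_boole]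

open Classical in
/-- Monotonicity of the exponential sum under restriction, all coordinates at once. -/
lemma sum_mono (hd : 1 ≤ d) {D : Type*} [Fintype D] [DecidableEq D] (A : Tensor (ZMod p) d ι)
    (φ : Fin d → D → ι) :
    ∃ n0 n1 : ℕ, n0 ≤ n1 ∧
      (Fintype.card (Fin d → D → ZMod p) : ℂ) *
        ∑ X : Fin d → ι → ZMod p, ee (form A X) = n0 ∧
      (Fintype.card (Fin d → ι → ZMod p) : ℂ) *
        ∑ Y : Fin d → D → ZMod p, ee (form (comap A φ) Y) = n1 := by
  let mix : Finset (Fin d) → (Fin d → ι → ZMod p) → (Fin d → D → ZMod p) →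
      (Fin d → ι → ZMod p) := fun W X Y i => if i ∈ W then pushHom (φ i) (Y i) else X i
  let B : Finset (Fin d) → ℂ := fun W => ∑ X : Fin d → ι → ZMod p,
    ∑ Y : Fin d → D → ZMod p, ee (form A (mix W X Y))
  have hmix1 : ∀ W i, i ∉ W → ∀ X Y g, mix W (Function.update X i g) Y =
      Function.update (mix W X Y) i g := by
    intro W i hi X Y g
    funext j
    by_cases hj : j = i
    · subst hj
      simp [mix, hi]
    · simp [mix, Function.update_of_ne hj]
  have hmix2 : ∀ W i, i ∉ W → ∀ X Y h, mix (insert i W) X (Function.update Y i h) =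
      Function.update (mix W X Y) i (pushHom (φ i) h) := by
    intro W i hi X Y h
    funext j
    by_cases hj : j = i
    · subst hj
      simp [mix]
    · simp [mix, hj]
  have hV : (Fintype.card (ι → ZMod p) : ℂ) ≠ 0 := by
    exact_mod_cast Fintype.card_ne_zero
  have hV' : (Fintype.card (D → ZMod p) : ℂ) ≠ 0 := by
    exact_mod_cast Fintype.card_ne_zero
  have hB1 : ∀ W i, i ∉ W → B W = (((univ ×ˢ univ).filter
      (fun XY : (Fin d → ι → ZMod p) × (Fin d → D → ZMod p) =>
        ∀ g, form A (Function.update (mix W XY.1 XY.2) i g) = 0)).card : ℂ) := by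
    intro W i hi
    apply mul_left_cancel₀ hV
    simp only [B]
    rw [sum_update' i]
    have h : ∀ X : Fin d → ι → ZMod p, ∑ g : ι → ZMod p, ∑ Y : Fin d → D → ZMod p,
        ee (form A (mix W (Function.update X i g) Y)) =
        ∑ Y : Fin d → D → ZMod p, (Fintype.card (ι → ZMod p) : ℂ) *
          (if ∀ g, form A (Function.update (mix W X Y) i g) = 0 then 1 else 0) := by
      intro X
      rw [sum_comm]
      apply sum_congr rfl
      intro Y _
      have h2 := sum_hom (formHom A (mix W X Y) i)
      simp only [formHom_apply] at h2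
      simp_rw [hmix1 W i hi]
      rw [h2]
      exact ite_aux _ _ _ _
    simp_rw [h, ← mul_sum]
    congr 1
    rw [← Fintype.sum_prod_type']
    rw [sum_boole]
    simp
  have hB2 : ∀ W i, i ∉ W → B (insert i W) = (((univ ×ˢ univ).filter
      (fun XY : (Fin d → ι → ZMod p) × (Fin d → D → ZMod p) =>
        ∀ h, form A (Function.update (mix W XY.1 XY.2) i (pushHom (φ i) h)) = 0)).card : ℂ) := by
    intro W i hi
    apply mul_left_cancel₀ hV'
    simp only [B]
    rw [mul_sum]
    have h : ∀ X : Fin d → ι → ZMod p, (Fintype.card (D → ZMod p) : ℂ) *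
        ∑ Y : Fin d → D → ZMod p, ee (form A (mix (insert i W) X Y)) =
        ∑ Y : Fin d → D → ZMod p, (Fintype.card (D → ZMod p) : ℂ) *
          (if ∀ h, form A (Function.update (mix W X Y) i (pushHom (φ i) h)) = 0
            then 1 else 0) := by
      intro X
      rw [sum_update' i]
      apply sum_congr rfl
      intro Y _
      have h2 := sum_hom ((formHom A (mix W X Y) i).comp (pushHom (φ i)))
      simp only [AddMonoidHom.comp_apply, formHom_apply] at h2
      simp_rw [hmix2 W i hi]
      rw [h2]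
      exact ite_aux _ _ _ _
    simp_rw [h, ← mul_sum]
    congr 1
    rw [← Fintype.sum_prod_type']
    rw [sum_boole]
    simp
  have hB3 : ∀ W : Finset (Fin d), ∃ n0 n1 : ℕ, n0 ≤ n1 ∧ B ∅ = n0 ∧ B W = n1 := by
    intro W
    induction W using Finset.induction_on with
    | empty => exact ⟨_, _, le_rfl, hB1 ∅ ⟨0, hd⟩ (notMem_empty _), hB1 ∅ ⟨0, hd⟩ (notMem_empty _)⟩
    | insert i W hi ih =>
      obtain ⟨n0, n1, h01, h0, h1⟩ := ih
      refine ⟨n0, _, ?_, h0, hB2 W i hi⟩
      refine le_trans h01 ?_
      have h2 := hB1 W i hi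
      rw [h1] at h2
      have h3 : n1 = ((univ ×ˢ univ).filter
        (fun XY : (Fin d → ι → ZMod p) × (Fin d → D → ZMod p) =>
          ∀ g, form A (Function.update (mix W XY.1 XY.2) i g) = 0)).card := by
        exact_mod_cast h2
      rw [h3]
      apply card_le_card
      intro XY hXY
      rw [mem_filter] at hXY ⊢
      exact ⟨hXY.1, fun h => hXY.2 _⟩
  obtain ⟨n0, n1, h01, h0, h1⟩ := hB3 univ
  refine ⟨n0, n1, h01, ?_, ?_⟩
  · rw [← h0]
    simp only [B]
    rw [mul_sum]
    apply sum_congr rfl
    intro X _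
    have : ∀ Y : Fin d → D → ZMod p, mix ∅ X Y = X := by
      intro Y
      funext i
      simp [mix]
    simp_rw [this]
    simp
  · rw [← h1]
    simp only [B]
    rw [sum_comm, mul_sum]
    apply sum_congr rfl
    intro Y _
    have : ∀ X : Fin d → ι → ZMod p, mix univ X Y = fun i => pushHom (φ i) (Y i) := by
      intro X
      funext i
      simp [mix]
    simp_rw [this]
    rw [form_comap]
    simp

omit [DecidableEq ι] in
lemma form_zero (hd : 2 ≤ d) (A : Tensor (ZMod p) d ι) (i : Fin d) (g : ι → ZMod p) :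
    form A (Function.update 0 i g) = 0 := by
  obtain ⟨j, hj⟩ : ∃ j : Fin d, j ≠ i := by
    by_cases hi : i.val = 0
    · exact ⟨⟨1, by omega⟩, fun h => by rw [← h] at hi; simp at hi⟩
    · exact ⟨⟨0, by omega⟩, fun h => by rw [← h] at hi; simp at hi⟩
  unfold form
  apply sum_eq_zero
  intro I _
  rw [prod_eq_zero (mem_univ j), mul_zero]
  rw [Function.update_of_ne hj]
  rfl

/-- The bias is a positive real number. -/
lemma bias_pos (hd : 2 ≤ d) (A : Tensor (ZMod p) d ι) :
    0 < (bias A).re ∧ bias A = ((bias A).re : ℂ) := by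
  classical
  have h := sum_ee_eq A ⟨0, by omega⟩
  set N := (univ.filter (fun X : Fin d → ι → ZMod p =>
        ∀ g, form A (Function.update X ⟨0, by omega⟩ g) = 0)).card with hN
  have hNpos : 0 < N := by
    apply card_pos.2
    refine ⟨0, ?_⟩
    rw [mem_filter]
    exact ⟨mem_univ _, fun g => form_zero hd A _ g⟩
  have hb : bias A = (((N : ℝ) / (Fintype.card (Fin d → ι → ZMod p) : ℝ) : ℝ) : ℂ) := by
    rw [bias_eq, h]
    push_cast
    rfl
  rw [hb]
  refine ⟨?_, ?_⟩
  · rw [Complex.ofReal_re]
    have : 0 < Fintype.card (Fin d → ι → ZMod p) := Fintype.card_pos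
    positivity
  · rw [Complex.ofReal_re]

/-- Restriction to a subtensor does not increase the analytic rank. -/
theorem arank_comap_le (hd : 2 ≤ d) {D : Type*} [Fintype D] [DecidableEq D]
    (A : Tensor (ZMod p) d ι) (φ : Fin d → D → ι) : arank (comap A φ) ≤ arank A := by
  classical
  obtain ⟨n0, n1, h01, h0, h1⟩ := sum_mono (by omega) A φ
  have hp := bias_pos hd A
  have hp' := bias_pos hd (comap A φ)
  have hV : (0 : ℝ) < (Fintype.card (Fin d → ι → ZMod p) : ℝ) := by
    exact_mod_cast Fintype.card_pos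
  have hV' : (0 : ℝ) < (Fintype.card (Fin d → D → ZMod p) : ℝ) := by
    exact_mod_cast Fintype.card_pos
  have e0 : (bias A).re = (n0 : ℝ) / ((Fintype.card (Fin d → ι → ZMod p) : ℝ) *
      (Fintype.card (Fin d → D → ZMod p) : ℝ)) := by
    have : bias A = (((n0 : ℝ) / ((Fintype.card (Fin d → ι → ZMod p) : ℝ) *
      (Fintype.card (Fin d → D → ZMod p) : ℝ)) : ℝ) : ℂ) := by
      rw [bias_eq]
      push_cast
      rw [← h0]
      have hV2 : (Fintype.card (Fin d → ι → ZMod p) : ℂ) ≠ 0 := by
        exact_mod_cast Fintype.card_ne_zero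
      have hV2' : (Fintype.card (Fin d → D → ZMod p) : ℂ) ≠ 0 := by
        exact_mod_cast Fintype.card_ne_zero
      field_simp
    rw [this, Complex.ofReal_re]
  have e1 : (bias (comap A φ)).re = (n1 : ℝ) / ((Fintype.card (Fin d → ι → ZMod p) : ℝ) *
      (Fintype.card (Fin d → D → ZMod p) : ℝ)) := by
    have : bias (comap A φ) = (((n1 : ℝ) / ((Fintype.card (Fin d → ι → ZMod p) : ℝ) *
      (Fintype.card (Fin d → D → ZMod p) : ℝ)) : ℝ) : ℂ) := by
      rw [bias_eq]
      push_cast
      rw [← h1]
      have hV2 : (Fintype.card (Fin d → ι → ZMod p) : ℂ) ≠ 0 := by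
        exact_mod_cast Fintype.card_ne_zero
      have hV2' : (Fintype.card (Fin d → D → ZMod p) : ℂ) ≠ 0 := by
        exact_mod_cast Fintype.card_ne_zero
      field_simp
    rw [this, Complex.ofReal_re]
  have hle : (bias A).re ≤ (bias (comap A φ)).re := by
    rw [e0, e1]
    have : (n0 : ℝ) ≤ (n1 : ℝ) := by exact_mod_cast h01
    gcongr
  unfold arank
  have hp1 : (1 : ℝ) < (p : ℝ) := by
    exact_mod_cast (Fact.out : p.Prime).one_lt
  exact neg_le_neg (Real.logb_le_logb_of_le hp1 hp.1 hle)

/-- If the form vanishes often, the analytic rank is small. -/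
lemma arank_le_of_count (A : Tensor (ZMod p) d ι) (i : Fin d)
    (Z : Finset (Fin d → ι → ZMod p)) (hZ : ∀ X ∈ Z, ∀ g, form A (Function.update X i g) = 0)
    (k : ℕ) (hcard : Fintype.card (Fin d → ι → ZMod p) ≤ p ^ k * Z.card) :
    arank A ≤ k := by
  classical
  have h := sum_ee_eq A i
  set N := (univ.filter (fun X : Fin d → ι → ZMod p =>
        ∀ g, form A (Function.update X i g) = 0)).card with hN
  have hZN : Z.card ≤ N := by
    apply card_le_card
    intro X hX
    rw [mem_filter]
    exact ⟨mem_univ _, hZ X hX⟩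
  have hb : (bias A).re = (N : ℝ) / (Fintype.card (Fin d → ι → ZMod p) : ℝ) := by
    have : bias A = (((N : ℝ) / (Fintype.card (Fin d → ι → ZMod p) : ℝ) : ℝ) : ℂ) := by
      rw [bias_eq, h]
      push_cast
      rfl
    rw [this, Complex.ofReal_re]
  have hV : (0 : ℝ) < (Fintype.card (Fin d → ι → ZMod p) : ℝ) := by
    exact_mod_cast Fintype.card_pos
  have hp0 : (0 : ℝ) < (p : ℝ) := by
    exact_mod_cast (Fact.out : p.Prime).pos
  have hp1 : (1 : ℝ) < (p : ℝ) := by
    exact_mod_cast (Fact.out : p.Prime).one_lt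
  have hle : ((p : ℝ) ^ k)⁻¹ ≤ (bias A).re := by
    rw [hb, inv_eq_one_div, div_le_div_iff₀ (by positivity) hV, one_mul]
    have h1 : (Fintype.card (Fin d → ι → ZMod p) : ℝ) ≤ (p : ℝ) ^ k * (Z.card : ℝ) := by
      exact_mod_cast hcard
    have h2 : (Z.card : ℝ) ≤ (N : ℝ) := by exact_mod_cast hZN
    nlinarith [pow_pos hp0 k]
  unfold arank
  have h2 := Real.logb_le_logb_of_le hp1 (by positivity) hle
  rw [Real.logb_inv, Real.logb_pow, Real.logb_self_eq_one hp1, mul_one] at h2
  linarith

end Bias

section Identity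

variable {p : ℕ} [Fact p.Prime] {d : ℕ}

lemma form_idT {F : Type*} [CommRing F] {D : Type*} [Fintype D] [DecidableEq D] (hd : 1 ≤ d)
    (Y : Fin d → D → F) : form (idT : Tensor F d D) Y = ∑ z, ∏ i, Y i z := by
  classical
  unfold form idT
  let b : Fin d := ⟨0, hd⟩
  symm
  have h1 : ∑ z : D, ∏ i, Y i z = ∑ I ∈ (univ : Finset D).image (fun z => (fun _ : Fin d => z)),
      ∏ i, Y i (I i) := by
    rw [sum_image]
    intro z _ z' _ hzz
    exact congrFun hzz b
  rw [h1]
  have h2 : ∑ I ∈ (univ : Finset D).image (fun z => (fun _ : Fin d => z)), ∏ i, Y i (I i) =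
      ∑ I ∈ (univ : Finset D).image (fun z => (fun _ : Fin d => z)),
        (if ∀ i j, I i = I j then (1 : F) else 0) * ∏ i, Y i (I i) := by
    apply sum_congr rfl
    intro I hI
    obtain ⟨z, _, rfl⟩ := mem_image.1 hI
    simp
  rw [h2]
  apply sum_subset (subset_univ _)
  intro I _ hI
  rw [if_neg, zero_mul]
  intro hc
  apply hI
  rw [mem_image]
  exact ⟨I b, mem_univ _, by funext i; exact hc b i⟩

/-- the exponential sum of a product of `d` scalars -/
noncomputable def sc (p d : ℕ) [Fact p.Prime] : ℂ := ∑ y : Fin d → ZMod p, ee (∏ i, y i)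

lemma ee_sum {D : Type*} [Fintype D] (f : D → ZMod p) : ee (∑ z, f z) = ∏ z, ee (f z) := by
  classical
  have h : ∀ s : Finset D, ee (∑ z ∈ s, f z) = ∏ z ∈ s, ee (f z) := by
    intro s
    induction s using Finset.induction_on with
    | empty => simp [ee]
    | insert a s ha ih =>
      rw [sum_insert ha, prod_insert ha, ← ih]
      unfold ee
      exact AddChar.map_add_eq_mul _ _ _
  exact h univ

lemma bias_idT (hd : 1 ≤ d) {D : Type*} [Fintype D] [DecidableEq D] :
    bias (idT : Tensor (ZMod p) d D) = (sc p d / (p : ℂ) ^ d) ^ Fintype.card D := by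
  classical
  rw [bias_eq]
  have h1 : ∑ X : Fin d → D → ZMod p, ee (form (idT : Tensor (ZMod p) d D) X) =
      sc p d ^ Fintype.card D := by
    simp_rw [form_idT hd, ee_sum]
    have h2 : ∑ X : Fin d → D → ZMod p, ∏ z, ee (∏ i, X i z) =
        ∑ Y : D → Fin d → ZMod p, ∏ z, ee (∏ i, Y z i) :=
      Equiv.sum_comp (Equiv.piComm (fun (_ : Fin d) (_ : D) => ZMod p))
        (fun Y : D → Fin d → ZMod p => ∏ z, ee (∏ i, Y z i))
    rw [h2]
    have h3 := (prod_univ_sum (fun _ : D => (univ : Finset (Fin d → ZMod p)))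
      (fun _ y => ee (∏ i, y i))).symm
    rw [Fintype.piFinset_univ] at h3
    rw [h3]
    simp [sc]
  rw [h1, div_pow]
  congr 1
  rw [← pow_mul]
  simp only [Fintype.card_pi, ZMod.card, prod_const, card_univ, Fintype.card_fin]
  push_cast
  rw [← pow_mul, mul_comm]

open Classical in
lemma sc_eq (hd : 1 ≤ d) : sc p d = ((univ.filter (fun y : Fin d → ZMod p =>
    ∀ g, ∏ j, (Function.update y (⟨0, hd⟩ : Fin d) g) j = 0)).card : ℂ) := by
  have hV : (Fintype.card (ZMod p) : ℂ) ≠ 0 := by
    exact_mod_cast Fintype.card_ne_zero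
  apply mul_left_cancel₀ hV
  unfold sc
  rw [sum_update' (⟨0, hd⟩ : Fin d)]
  have h : ∀ y : Fin d → ZMod p, ∑ g, ee (∏ j, (Function.update y (⟨0, hd⟩ : Fin d) g) j) =
      (Fintype.card (ZMod p) : ℂ) *
        (if ∀ g, ∏ j, (Function.update y (⟨0, hd⟩ : Fin d) g) j = 0 then 1 else 0) := by
    intro y
    have hprod : ∀ g : ZMod p, ∏ j, (Function.update y (⟨0, hd⟩ : Fin d) g) j =
        g * ∏ j ∈ univ.erase (⟨0, hd⟩ : Fin d), y j := by
      intro g
      rw [← mul_prod_erase univ _ (mem_univ (⟨0, hd⟩ : Fin d)), Function.update_self]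
      congr 1
      apply prod_congr rfl
      intro j hj
      rw [Function.update_of_ne (ne_of_mem_erase hj)]
    simp_rw [hprod]
    have h2 := sum_hom (AddMonoidHom.mulRight (∏ j ∈ univ.erase (⟨0, hd⟩ : Fin d), y j))
    simp only [AddMonoidHom.coe_mulRight] at h2
    rw [h2]
    exact ite_aux _ _ _ _
  simp_rw [h]
  rw [← mul_sum]
  congr 1
  rw [sum_boole]

/-- The constant `c_{d,p} > 0` with `arank(Id_D) = c_{d,p} |D|`. -/
theorem arank_idT (p d : ℕ) [Fact p.Prime] (hd : 2 ≤ d) :
    ∃ c : ℝ, 0 < c ∧ ∀ (D : Type) [Fintype D] [DecidableEq D],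
      arank (idT : Tensor (ZMod p) d D) = Fintype.card D * c := by
  classical
  have hd1 : 1 ≤ d := by omega
  have hs := sc_eq (p := p) hd1
  set N := (univ.filter (fun y : Fin d → ZMod p =>
    ∀ g, ∏ j, (Function.update y (⟨0, hd1⟩ : Fin d) g) j = 0)).card with hN
  have hNpos : 0 < N := by
    apply card_pos.2
    refine ⟨0, ?_⟩
    rw [mem_filter]
    refine ⟨mem_univ _, fun g => ?_⟩
    apply prod_eq_zero (mem_univ (⟨1, by omega⟩ : Fin d))
    rw [Function.update_of_ne]
    · rfl
    · intro h
      have := congrArg Fin.val h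
      simp at this
  have hNlt : N < p ^ d := by
    have h1 : Fintype.card (Fin d → ZMod p) = p ^ d := by simp [ZMod.card]
    rw [← h1]
    apply card_lt_univ_of_notMem (x := fun _ => (1 : ZMod p))
    rw [mem_filter]
    rintro ⟨_, h⟩
    have := h 1
    rw [prod_eq_one] at this
    · exact one_ne_zero this
    · intro j _
      by_cases hj : j = ⟨0, hd1⟩
      · rw [hj, Function.update_self]
      · rw [Function.update_of_ne hj]
  have hp1 : (1 : ℝ) < (p : ℝ) := by
    exact_mod_cast (Fact.out : p.Prime).one_lt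
  have hp0 : (0 : ℝ) < (p : ℝ) := by linarith
  set β : ℝ := (N : ℝ) / (p : ℝ) ^ d with hβ
  have hβpos : 0 < β := by positivity
  have hβlt : β < 1 := by
    rw [hβ, div_lt_one (by positivity)]
    exact_mod_cast hNlt
  refine ⟨-Real.logb p β, ?_, ?_⟩
  · rw [Left.neg_pos_iff]
    exact Real.logb_neg hp1 hβpos hβlt
  · intro D _ _
    have hb : bias (idT : Tensor (ZMod p) d D) = ((β ^ Fintype.card D : ℝ) : ℂ) := by
      rw [bias_idT hd1, hs, hβ]
      push_cast
      rfl
    unfold arank
    rw [hb, Complex.ofReal_re, Real.logb_pow]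
    ring

lemma tpow_idT {F : Type*} [CommSemiring F] {ι : Type*} [DecidableEq ι] (m : ℕ) :
    tpow (idT : Tensor F d ι) m = idT := by
  classical
  funext I
  unfold tpow idT
  by_cases h : ∀ i j, I i = I j
  · rw [if_pos h]
    apply prod_eq_one
    intro k _
    rw [if_pos]
    intro i j
    exact congrFun (h i j) k
  · rw [if_neg h]
    simp only [not_forall] at h
    obtain ⟨i, j, hij⟩ := h
    obtain ⟨k, hk⟩ := Function.ne_iff.1 hij
    apply prod_eq_zero (mem_univ k)
    rw [if_neg]
    intro hc
    exact hk (hc i j)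

end Identity

section Count

variable {p : ℕ} [Fact p.Prime] {d : ℕ} {V : Type*} [Fintype V] [AddCommGroup V]

lemma ker_count {G : Type*} [AddCommGroup G] [Fintype G] (f : G →+ ZMod p) :
    Fintype.card G ≤ p * (univ.filter (fun g => f g = 0)).card := by
  classical
  have h1 : Fintype.card G = ∑ a : ZMod p, (univ.filter (fun g => f g = a)).card := by
    rw [← card_univ]
    exact card_eq_sum_card_fiberwise (fun g _ => mem_coe.2 (mem_univ (f g)))
  have h2 : ∀ a : ZMod p, (univ.filter (fun g => f g = a)).card ≤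
      (univ.filter (fun g => f g = 0)).card := by
    intro a
    by_cases hne : (univ.filter (fun g => f g = a)).Nonempty
    · obtain ⟨g0, hg0⟩ := hne
      have hg0' := (mem_filter.1 hg0).2
      apply card_le_card_of_injOn (fun g => g - g0)
      · intro g hg
        have hg' := (mem_filter.1 hg).2
        simp only [coe_filter, mem_univ, true_and, Set.mem_ofPred_eq]
        rw [map_sub, hg', hg0', sub_self]
      · intro g _ g' _ hgg
        exact sub_left_injective hgg
    · rw [not_nonempty_iff_eq_empty] at hne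
      rw [hne]
      simp
  rw [h1]
  refine le_trans (sum_le_sum (fun a _ => h2 a)) ?_
  simp [ZMod.card]

/-- Imposing one more condition that is additive in a fresh variable costs at most a factor
`p`. -/
lemma count_step (i : Fin d) (u : (Fin d → V) → ZMod p)
    (hu : ∀ X, ∃ f : V →+ ZMod p, ∀ g, u (Function.update X i g) = f g)
    (Q : (Fin d → V) → Prop) [DecidablePred Q] (hQ : ∀ X g, Q (Function.update X i g) ↔ Q X) :
    (univ.filter Q).card ≤ p * (univ.filter (fun X => u X = 0 ∧ Q X)).card := by
  classical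
  have hV : 0 < Fintype.card V := Fintype.card_pos
  apply Nat.le_of_mul_le_mul_left _ hV
  have e1 : ∀ (P : (Fin d → V) → Prop) [DecidablePred P],
      (univ.filter P).card = ∑ X, if P X then 1 else 0 := by
    intro P _
    rw [card_filter]
  rw [e1 Q, e1 (fun X => u X = 0 ∧ Q X)]
  have h2 : Fintype.card V * (p * ∑ X : Fin d → V, if u X = 0 ∧ Q X then 1 else 0) =
      p * ∑ X : Fin d → V, ∑ g : V, if u (Function.update X i g) = 0 ∧
        Q (Function.update X i g) then 1 else 0 := by
    have := sum_update (R := ℕ) i (fun X : Fin d → V => if u X = 0 ∧ Q X then 1 else 0)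
    simp only [Nat.cast_id] at this
    rw [this]
    ring
  rw [h2, mul_sum, mul_sum]
  apply sum_le_sum
  intro X _
  by_cases hq : Q X
  · simp only [hQ, hq, and_true, if_true, mul_one]
    obtain ⟨f, hf⟩ := hu X
    have := ker_count f
    rw [card_filter] at this
    simpa [hf] using this
  · simp [hq]

end Count

end Pool.Agent.Lib.MP_a9d09b_co
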