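import Mathlib

/-!
Definitions for the tensorization problem for partition rank and analytic rank.

A tensor of dimension `d` over `F` all of whose indices run over a finite set `ι` is a function
`(Fin d → ι) → F`.  For side `n` one takes `ι = Fin n`; the `m`-th tensor power has index set
`Fin m → Fin n`, i.e. `[n]^m`, which the problem identifies with `[n^m]`.
-/

namespace Pool.Agent.Lib.MP_a9d09b_co

/-- A `d`-dimensional tensor over `F`, all of whose indices run over `ι`. -/
abbrev Tensor (F : Type*) (d : ℕ) (ι : Type*) := (Fin d → ι) → F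

/-- The multilinear form
`f_A(X_1, …, X_d) = ∑ A(i_1, …, i_d) X_1[i_1] ⋯ X_d[i_d]` of a tensor `A`. -/
def form {F : Type*} [CommSemiring F] {d : ℕ} {ι : Type*} [Fintype ι]
    (A : Tensor F d ι) (X : Fin d → ι → F) : F :=
  ∑ I : Fin d → ι, A I * ∏ j, X j (I j)

/-- `PartitionDecomp A r`: one can write `f_A = ∑_{j < r} g_j h_j` where for every `j` there is a
set `S_j` of coordinates, neither empty nor everything, such that `g_j` depends only on the
variables `X_i`, `i ∈ S_j`, and `h_j` only on the variables `X_i`, `i ∉ S_j`.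
(Requiring in addition that `g_j` and `h_j` are multilinear in these variables gives the same
notion: this is theorem `decomp_iff_multilinear` in the file `Mult`.) -/
def PartitionDecomp {F : Type*} [CommSemiring F] {d : ℕ} {ι : Type*} [Fintype ι]
    (A : Tensor F d ι) (r : ℕ) : Prop :=
  ∃ (S : Fin r → Set (Fin d)) (g h : Fin r → (Fin d → ι → F) → F),
    (∀ j, (S j).Nonempty ∧ S j ≠ Set.univ) ∧
    (∀ j, DependsOn (g j) (S j)) ∧ (∀ j, DependsOn (h j) (S j)ᶜ) ∧
    ∀ X, form A X = ∑ j, g j X * h j X

/-- Partition rank: the least `r` for which such a decomposition exists. -/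
noncomputable def prank {F : Type*} [CommSemiring F] {d : ℕ} {ι : Type*} [Fintype ι]
    (A : Tensor F d ι) : ℕ :=
  sInf {r | PartitionDecomp A r}

/-- The bias `E ω^{f_A(X_1, …, X_d)}`, `ω = e^{2πi/p}`, for independent uniform
`X_1, …, X_d ∈ F_p^ι`. -/
noncomputable def bias {p : ℕ} [NeZero p] {d : ℕ} {ι : Type*} [Fintype ι] [DecidableEq ι]
    (A : Tensor (ZMod p) d ι) : ℂ :=
  (∑ X : Fin d → ι → ZMod p,
      Complex.exp (2 * Real.pi * Complex.I * ((form A X).val : ℂ) / (p : ℂ))) /
    (Fintype.card (Fin d → ι → ZMod p) : ℂ)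

/-- Analytic rank `-log_p Bias(f_A)` (the bias is a positive real number, so that it equals its
real part). -/
noncomputable def arank {p : ℕ} [NeZero p] {d : ℕ} {ι : Type*} [Fintype ι] [DecidableEq ι]
    (A : Tensor (ZMod p) d ι) : ℝ :=
  -Real.logb p (bias A).re

/-- The identity tensor: `1` if all indices agree, `0` otherwise. -/
def idT {F : Type*} [CommSemiring F] {d : ℕ} {ι : Type*} [DecidableEq ι] : Tensor F d ι :=
  fun I => if ∀ i j, I i = I j then 1 else 0

/-- The tensor power `A^{⊗m}(I_1, …, I_d) = ∏_{k < m} A(I_1^{(k)}, …, I_d^{(k)})`. -/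
def tpow {F : Type*} [CommSemiring F] {d : ℕ} {ι : Type*} (A : Tensor F d ι) (m : ℕ) :
    Tensor F d (Fin m → ι) :=
  fun I => ∏ k, A (fun j => I j k)

end Pool.Agent.Lib.MP_a9d09b_co
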