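import Pool.Agent.Lib.MP_a9d09b_co.Defs

/-!
Partition rank of tensors that contain a diagonal subtensor (Naslund's lemma).
-/

namespace Pool.Agent.Lib.MP_a9d09b_co

open Finset

section Diag

variable {F : Type*} [Field F] [DecidableEq F] {D : Type*} [Fintype D] [DecidableEq D]

/-- A vector supported in `C`, orthogonal to `|J|` given vectors, with at least `|C| - |J|`
nonzero entries. -/
lemma exists_vec (C : Finset D) {κ : Type*} (J : Finset κ) (p : κ → D → F) :
    ∃ v : D → F, (∀ t, t ∉ C → v t = 0) ∧ (∀ j ∈ J, ∑ t, v t * p j t = 0) ∧
      C.card ≤ J.card + (univ.filter (fun t => v t ≠ 0)).card := by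
  classical
  -- choose `v` with largest support
  let Good : (D → F) → Prop := fun v =>
    (∀ t, t ∉ C → v t = 0) ∧ (∀ j ∈ J, ∑ t, v t * p j t = 0)
  let P : ℕ → Prop := fun s => ∃ v, Good v ∧ (univ.filter (fun t => v t ≠ 0)).card = s
  have hP0 : ∃ s, P s := ⟨_, 0, ⟨fun _ _ => rfl, fun _ _ => by simp⟩, rfl⟩
  have hPb : ∀ s, P s → s ≤ Fintype.card D := by
    rintro s ⟨v, _, rfl⟩
    exact card_le_univ _
  obtain ⟨s, ⟨v, hv, hvs⟩, hmax⟩ : ∃ s, P s ∧ ∀ s', P s' → s' ≤ s := by
    have hfin : {s | P s}.Finite := (Set.finite_Iic (Fintype.card D)).subset hPb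
    obtain ⟨s, hs, hmax⟩ := hfin.exists_maximal hP0
    refine ⟨s, hs, fun s' hs' => ?_⟩
    by_contra hlt
    exact hlt (hmax hs' (le_of_not_ge hlt))
  refine ⟨v, hv.1, hv.2, ?_⟩
  by_contra hlt
  rw [not_le] at hlt
  set supp : Finset D := univ.filter (fun t => v t ≠ 0) with hsupp
  have hsub : ∀ t, t ∈ supp → t ∈ C := by
    intro t ht
    by_contra hc
    exact (mem_filter.1 ht).2 (hv.1 t hc)
  let L : ({t // t ∈ C} → F) →ₗ[F] ({j // j ∈ J} → F) × ({t // t ∈ supp} → F) :=
    LinearMap.prod
      (LinearMap.pi fun j : {j // j ∈ J} =>
        ∑ t : {t // t ∈ C}, (p j.1 t.1) • (LinearMap.proj t : ({t // t ∈ C} → F) →ₗ[F] F))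
      (LinearMap.pi fun t : {t // t ∈ supp} =>
        (LinearMap.proj (⟨t.1, hsub t.1 t.2⟩ : {t // t ∈ C}) : ({t // t ∈ C} → F) →ₗ[F] F))
  have hdim : Module.finrank F (({j // j ∈ J} → F) × ({t // t ∈ supp} → F)) <
      Module.finrank F ({t // t ∈ C} → F) := by
    rw [Module.finrank_prod, Module.finrank_fintype_fun_eq_card,
      Module.finrank_fintype_fun_eq_card, Module.finrank_fintype_fun_eq_card]
    simpa using hlt
  have hker := LinearMap.ker_ne_bot_of_finrank_lt (f := L) hdim
  obtain ⟨w, hw, hw0⟩ := (Submodule.ne_bot_iff _).1 hker
  have hLw : L w = 0 := hw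
  let w' : D → F := fun t => if h : t ∈ C then w ⟨t, h⟩ else 0
  have hw'C : ∀ t, t ∉ C → w' t = 0 := fun t ht => by simp [w', ht]
  have hw'J : ∀ j ∈ J, ∑ t, w' t * p j t = 0 := by
    intro j hj
    have h0 : (L w).1 ⟨j, hj⟩ = 0 := by rw [hLw]; rfl
    have h1 : ∑ t : {t // t ∈ C}, p j t.1 * w t = 0 := by
      rw [← h0]
      simp [L]
    rw [← h1]
    have h2 : ∑ t, w' t * p j t = ∑ t ∈ C, w' t * p j t := by
      symm
      apply sum_subset (subset_univ C)
      intro t _ ht
      rw [hw'C t ht, zero_mul]
    rw [h2, ← sum_coe_sort C]
    apply sum_congr rfl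
    intro t _
    simp only [w', t.2, dif_pos]
    exact mul_comm _ _
  have hw's : ∀ t ∈ supp, w' t = 0 := by
    intro t ht
    have h0 : (L w).2 ⟨t, ht⟩ = 0 := by rw [hLw]; rfl
    simp only [w', hsub t ht, dif_pos]
    rw [← h0]
    simp [L]
  obtain ⟨t0, ht0⟩ : ∃ t, w' t ≠ 0 := by
    obtain ⟨t, ht⟩ := Function.ne_iff.1 hw0
    refine ⟨t.1, ?_⟩
    simp only [w', t.2, dif_pos]
    exact ht
  have hnew : P ((univ.filter (fun t => (v + w') t ≠ 0)).card) := by
    refine ⟨v + w', ⟨?_, ?_⟩, rfl⟩
    · intro t ht
      simp [hv.1 t ht, hw'C t ht]
    · intro j hj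
      simp only [Pi.add_apply, add_mul, sum_add_distrib]
      rw [hv.2 j hj, hw'J j hj, add_zero]
  have hlt2 : supp.card < (univ.filter (fun t => (v + w') t ≠ 0)).card := by
    apply card_lt_card
    rw [ssubset_iff_of_subset]
    · refine ⟨t0, ?_, ?_⟩
      · rw [mem_filter]
        refine ⟨mem_univ _, ?_⟩
        have : v t0 = 0 := by
          by_contra hne
          exact ht0 (hw's t0 (by simp [hsupp, hne]))
        simp [this, ht0]
      · intro hmem
        exact ht0 (hw's t0 hmem)
    · intro t ht
      rw [mem_filter]
      refine ⟨mem_univ _, ?_⟩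
      rw [Pi.add_apply, hw's t ht, add_zero]
      exact (mem_filter.1 ht).2
  have := hmax _ hnew
  omega

/-- Naslund's lemma, in the form used for induction on the set of coordinates. -/
lemma diag_bound {I : Type*} [DecidableEq I] {κ : Type*} [DecidableEq κ] (b : I)
    (W : Finset I) :
    b ∉ W → ∀ (c : D → F) (J : Finset κ) (S T : κ → Finset I) (g h : κ → (I → D) → F),
      (∀ j ∈ J, (S j).Nonempty ∧ (T j).Nonempty ∧ Disjoint (S j) (T j) ∧
        S j ⊆ insert b W ∧ T j ⊆ insert b W) →
      (∀ j ∈ J, DependsOn (g j) (S j : Set I)) → (∀ j ∈ J, DependsOn (h j) (T j : Set I)) →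
      (∀ x : I → D, (if ∀ u ∈ W, x u = x b then c (x b) else 0) = ∑ j ∈ J, g j x * h j x) →
      (univ.filter (fun t => c t ≠ 0)).card ≤ J.card := by
  classical
  induction W using Finset.induction_on with
  | empty =>
    intro _ c J S T g h hST _ _ hx
    have hJ : J = ∅ := by
      by_contra hne
      obtain ⟨j, hj⟩ := nonempty_iff_ne_empty.2 hne
      obtain ⟨⟨s, hs⟩, ⟨t, ht⟩, hdis, hS, hT⟩ := hST j hj
      have h1 : s = b := by simpa using hS hs
      have h2 : t = b := by simpa using hT ht
      subst h1
      subst h2
      exact (disjoint_left.1 hdis) hs ht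
    subst hJ
    simp only [card_empty, nonpos_iff_eq_zero, card_eq_zero]
    apply filter_eq_empty_iff.2
    intro t _ hct
    have := hx (fun _ => t)
    simp at this
    exact hct this
  | insert a W' ha ih =>
    intro hb c J S T g h hST hg hh hx
    have hba : b ≠ a := fun e => hb (by rw [e]; exact mem_insert_self _ _)
    have hbW : b ∉ W' := fun e => hb (mem_insert_of_mem e)
    by_cases hD : Nonempty D
    swap
    · have : univ.filter (fun t : D => c t ≠ 0) = ∅ := by
        apply filter_eq_empty_iff.2
        intro t
        exact (hD ⟨t⟩).elim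
      rw [this]
      simp
    obtain ⟨t0⟩ := hD
    let x0 : I → D := fun _ => t0
    let q : κ → D → F := fun j t =>
      if S j = {a} then g j (Function.update x0 a t) else h j (Function.update x0 a t)
    set Ja := J.filter (fun j => S j = {a} ∨ T j = {a}) with hJa
    set J' := J.filter (fun j => ¬ (S j = {a} ∨ T j = {a})) with hJ'
    obtain ⟨v, hvC, hvq, hcard⟩ := exists_vec (univ.filter (fun t => c t ≠ 0)) Ja q
    let g' : κ → (I → D) → F := fun j x =>
      if a ∈ S j then ∑ t, v t * g j (Function.update x a t) else g j x
    let h' : κ → (I → D) → F := fun j x =>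
      if a ∈ S j then h j x else ∑ t, v t * h j (Function.update x a t)
    -- contraction of one term
    have hterm : ∀ j ∈ J, ∀ x, ∑ t, v t * (g j (Function.update x a t) *
        h j (Function.update x a t)) = g' j x * h' j x := by
      intro j hj x
      obtain ⟨_, _, hdis, _, _⟩ := hST j hj
      by_cases haS : a ∈ S j
      · have haT : a ∉ T j := (disjoint_left.1 hdis) haS
        have hh2 : ∀ t, h j (Function.update x a t) = h j x := by
          intro t
          apply hh j hj
          intro i hi
          have : i ≠ a := fun e => haT (by rw [← e]; exact hi)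
          exact Function.update_of_ne this _ _
        simp only [g', h', haS, if_true]
        rw [sum_mul]
        apply sum_congr rfl
        intro t _
        rw [hh2 t]
        ring
      · have hg2 : ∀ t, g j (Function.update x a t) = g j x := by
          intro t
          apply hg j hj
          intro i hi
          have : i ≠ a := fun e => haS (by rw [← e]; exact hi)
          exact Function.update_of_ne this _ _
        simp only [g', h', haS, if_false]
        rw [mul_sum]
        apply sum_congr rfl
        intro t _
        rw [hg2 t]
        ring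
    -- terms in `Ja` vanish
    have hzero : ∀ j ∈ Ja, ∀ x, ∑ t, v t * (g j (Function.update x a t) *
        h j (Function.update x a t)) = 0 := by
      intro j hj x
      have hjJ : j ∈ J := (mem_filter.1 hj).1
      obtain ⟨_, _, hdis, _, _⟩ := hST j hjJ
      have hq := hvq j hj
      by_cases hS : S j = {a}
      · have haT : a ∉ T j := by
          intro haT
          exact (disjoint_left.1 hdis) (by rw [hS]; exact mem_singleton_self _) haT
        have hh2 : ∀ t, h j (Function.update x a t) = h j x := by
          intro t
          apply hh j hjJ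
          intro i hi
          have : i ≠ a := fun e => haT (by rw [← e]; exact hi)
          exact Function.update_of_ne this _ _
        have hg2 : ∀ t, g j (Function.update x a t) = q j t := by
          intro t
          simp only [q, hS, if_true]
          apply hg j hjJ
          intro i hi
          have hi' : i = a := by
            have : i ∈ S j := hi
            rw [hS] at this
            exact mem_singleton.1 this
          rw [hi', Function.update_self, Function.update_self]
        have : ∑ t, v t * (g j (Function.update x a t) * h j (Function.update x a t)) =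
            (∑ t, v t * q j t) * h j x := by
          rw [sum_mul]
          apply sum_congr rfl
          intro t _
          rw [hh2 t, hg2 t]
          ring
        rw [this, hq, zero_mul]
      · have hT : T j = {a} := by
          rcases (mem_filter.1 hj).2 with h1 | h1
          · exact (hS h1).elim
          · exact h1
        have haS : a ∉ S j := by
          intro haS
          exact (disjoint_left.1 hdis) haS (by rw [hT]; exact mem_singleton_self _)
        have hg2 : ∀ t, g j (Function.update x a t) = g j x := by
          intro t
          apply hg j hjJ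
          intro i hi
          have : i ≠ a := fun e => haS (by rw [← e]; exact hi)
          exact Function.update_of_ne this _ _
        have hh2 : ∀ t, h j (Function.update x a t) = q j t := by
          intro t
          simp only [q, hS, if_false]
          apply hh j hjJ
          intro i hi
          have hi' : i = a := by
            have : i ∈ T j := hi
            rw [hT] at this
            exact mem_singleton.1 this
          rw [hi', Function.update_self, Function.update_self]
        have : ∑ t, v t * (g j (Function.update x a t) * h j (Function.update x a t)) =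
            g j x * (∑ t, v t * q j t) := by
          rw [mul_sum]
          apply sum_congr rfl
          intro t _
          rw [hg2 t, hh2 t]
          ring
        rw [this, hq, mul_zero]
    have hJJ : Ja.card + J'.card = J.card := by
      rw [hJa, hJ']
      exact card_filter_add_card_filter_not _
    have key := ih hbW (fun t => v t * c t) J' (fun j => (S j).erase a) (fun j => (T j).erase a)
      g' h' ?_ ?_ ?_ ?_
    · have hsame : univ.filter (fun t => v t * c t ≠ 0) = univ.filter (fun t => v t ≠ 0) := by
        apply filter_congr
        intro t _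
        constructor
        · intro h1 h2
          exact h1 (by rw [h2, zero_mul])
        · intro h1
          have hc : c t ≠ 0 := by
            by_contra hc
            exact h1 (hvC t (by simp [hc]))
          exact mul_ne_zero h1 hc
      rw [hsame] at key
      omega
    · intro j hj
      obtain ⟨hjJ, hjn⟩ := mem_filter.1 hj
      obtain ⟨hSn, hTn, hdis, hS, hT⟩ := hST j hjJ
      rw [not_or] at hjn
      refine ⟨?_, ?_, ?_, ?_, ?_⟩
      · rw [nonempty_iff_ne_empty]
        intro he
        rcases (erase_eq_empty_iff _ _).1 he with h1 | h1
        · exact hSn.ne_empty h1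
        · exact hjn.1 h1
      · rw [nonempty_iff_ne_empty]
        intro he
        rcases (erase_eq_empty_iff _ _).1 he with h1 | h1
        · exact hTn.ne_empty h1
        · exact hjn.2 h1
      · exact hdis.mono (erase_subset _ _) (erase_subset _ _)
      · intro i hi
        obtain ⟨h1, h2⟩ := mem_erase.1 hi
        have := hS h2
        simp only [mem_insert] at this ⊢
        tauto
      · intro i hi
        obtain ⟨h1, h2⟩ := mem_erase.1 hi
        have := hT h2
        simp only [mem_insert] at this ⊢
        tauto
    · intro j hj x y hxy
      obtain ⟨hjJ, hjn⟩ := mem_filter.1 hj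
      by_cases haS : a ∈ S j
      · simp only [g', haS, if_true]
        apply sum_congr rfl
        intro t _
        congr 1
        apply hg j hjJ
        intro i hi
        by_cases hia : i = a
        · rw [hia, Function.update_self, Function.update_self]
        · rw [Function.update_of_ne hia, Function.update_of_ne hia]
          exact hxy i (by simp only [coe_erase, Set.mem_sdiff, Set.mem_singleton_iff]; exact ⟨hi, hia⟩)
      · simp only [g', haS, if_false]
        apply hg j hjJ
        intro i hi
        have hia : i ≠ a := fun e => haS (by rw [← e]; exact hi)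
        exact hxy i (by simp only [coe_erase, Set.mem_sdiff, Set.mem_singleton_iff]; exact ⟨hi, hia⟩)
    · intro j hj x y hxy
      obtain ⟨hjJ, hjn⟩ := mem_filter.1 hj
      obtain ⟨_, _, hdis, _, _⟩ := hST j hjJ
      by_cases haS : a ∈ S j
      · simp only [h', haS, if_true]
        have haT : a ∉ T j := (disjoint_left.1 hdis) haS
        apply hh j hjJ
        intro i hi
        have hia : i ≠ a := fun e => haT (by rw [← e]; exact hi)
        exact hxy i (by simp only [coe_erase, Set.mem_sdiff, Set.mem_singleton_iff]; exact ⟨hi, hia⟩)
      · simp only [h', haS, if_false]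
        apply sum_congr rfl
        intro t _
        congr 1
        apply hh j hjJ
        intro i hi
        by_cases hia : i = a
        · rw [hia, Function.update_self, Function.update_self]
        · rw [Function.update_of_ne hia, Function.update_of_ne hia]
          exact hxy i (by simp only [coe_erase, Set.mem_sdiff, Set.mem_singleton_iff]; exact ⟨hi, hia⟩)
    · intro x
      have h1 : ∑ t, v t * (∑ j ∈ J, g j (Function.update x a t) *
          h j (Function.update x a t)) = ∑ j ∈ J', g' j x * h' j x := by
        simp_rw [mul_sum]
        rw [sum_comm]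
        rw [← sum_filter_add_sum_filter_not J (fun j => S j = {a} ∨ T j = {a})]
        rw [sum_eq_zero (fun j hj => hzero j hj x), zero_add]
        apply sum_congr rfl
        intro j hj
        exact hterm j (mem_filter.1 hj).1 x
      rw [← h1]
      have h2 : ∀ t, (∑ j ∈ J, g j (Function.update x a t) * h j (Function.update x a t)) =
          if t = x b ∧ ∀ u ∈ W', x u = x b then c (x b) else 0 := by
        intro t
        rw [← hx (Function.update x a t)]
        have hub : Function.update x a t b = x b := Function.update_of_ne hba _ _
        rw [hub]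
        congr 1
        apply propext
        constructor
        · intro hu
          refine ⟨?_, ?_⟩
          · have := hu a (mem_insert_self _ _)
            rwa [Function.update_self] at this
          · intro u hu'
            have := hu u (mem_insert_of_mem hu')
            have hua : u ≠ a := fun e => ha (by rw [← e]; exact hu')
            rwa [Function.update_of_ne hua] at this
        · rintro ⟨h3, h4⟩ u hu
          rcases mem_insert.1 hu with rfl | hu
          · rw [Function.update_self]; exact h3
          · have hua : u ≠ a := fun e => ha (by rw [← e]; exact hu)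
            rw [Function.update_of_ne hua]
            exact h4 u hu
      simp_rw [h2]
      by_cases hW : ∀ u ∈ W', x u = x b
      · rw [if_pos hW]
        rw [sum_eq_single (x b)]
        · rw [if_pos ⟨rfl, hW⟩]
        · intro t _ ht
          rw [if_neg (fun h3 => ht h3.1), mul_zero]
        · intro h3
          exact (h3 (mem_univ _)).elim
      · rw [if_neg hW]
        symm
        apply sum_eq_zero
        intro t _
        rw [if_neg (fun h3 => hW h3.2), mul_zero]

end Diag

section Form

variable {F : Type*} [Field F] {d : ℕ} {ι : Type*} [Fintype ι]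

/-- Evaluating `f_A` at standard basis vectors gives the entries of `A`. -/
lemma form_single [DecidableEq ι] (A : Tensor F d ι) (I : Fin d → ι) :
    form A (fun i => Pi.single (I i) 1) = A I := by
  classical
  unfold form
  rw [sum_eq_single I]
  · simp
  · intro J _ hJ
    obtain ⟨i, hi⟩ := Function.ne_iff.1 hJ
    have : ∏ j, (Pi.single (I j) (1 : F) : ι → F) (J j) = 0 := by
      apply prod_eq_zero (mem_univ i)
      exact Pi.single_eq_of_ne hi _
    rw [this, mul_zero]
  · intro h
    exact (h (mem_univ _)).elim

/-- If a tensor contains an identity subtensor indexed by `D` then each partition rank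
decomposition of it has at least `|D|` terms. -/
theorem card_le_of_decomp {D : Type*} [Fintype D] [DecidableEq D] {r : ℕ} (hd : 1 ≤ d)
    (A : Tensor F d ι) (hA : PartitionDecomp A r) (φ : Fin d → D → ι)
    (hφ : ∀ z : Fin d → D, A (fun i => φ i (z i)) = if ∀ i j, z i = z j then 1 else 0) :
    Fintype.card D ≤ r := by
  classical
  obtain ⟨S, g, h, hS, hg, hh, hx⟩ := hA
  let b : Fin d := ⟨0, hd⟩
  let toX : (Fin d → D) → (Fin d → ι → F) := fun z i => Pi.single (φ i (z i)) 1
  have key := diag_bound (F := F) (D := D) b (univ.erase b) (notMem_erase _ _) (fun _ => (1 : F))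
    (univ : Finset (Fin r)) (fun j => univ.filter (fun i => i ∈ S j))
    (fun j => univ.filter (fun i => i ∉ S j)) (fun j z => g j (toX z)) (fun j z => h j (toX z))
    ?_ ?_ ?_ ?_
  · simpa using key
  · intro j _
    refine ⟨?_, ?_, ?_, ?_, ?_⟩
    · obtain ⟨i, hi⟩ := (hS j).1
      exact ⟨i, by simp [hi]⟩
    · obtain ⟨i, hi⟩ := (Set.ne_univ_iff_exists_notMem _).1 (hS j).2
      exact ⟨i, by simp [hi]⟩
    · rw [disjoint_left]
      intro i h1 h2
      exact (mem_filter.1 h2).2 (mem_filter.1 h1).2
    · intro i _
      by_cases hi : i = b <;> simp [hi]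
    · intro i _
      by_cases hi : i = b <;> simp [hi]
  · intro j _ z z' hz
    apply hg j
    intro i hi
    simp only [toX]
    rw [hz i (by simpa using hi)]
  · intro j _ z z' hz
    apply hh j
    intro i hi
    simp only [toX]
    rw [hz i (by simpa using hi)]
  · intro z
    have h1 := hx (toX z)
    rw [← h1]
    have h2 : form A (toX z) = A (fun i => φ i (z i)) := form_single A (fun i => φ i (z i))
    rw [h2, hφ z]
    congr 1
    apply propext
    constructor
    · intro hu i j
      have h3 : ∀ i, z i = z b := by
        intro i
        by_cases hi : i = b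
        · rw [hi]
        · exact hu i (by simp [hi])
      rw [h3 i, h3 j]
    · intro hu i _
      exact hu i b

/-- Every tensor of dimension at least two has a decomposition with `|ι|` terms. -/
lemma decomp_card (hd : 2 ≤ d) (A : Tensor F d ι) : PartitionDecomp A (Fintype.card ι) := by
  classical
  let e : Fin (Fintype.card ι) ≃ ι := (Fintype.equivFin ι).symm
  let b : Fin d := ⟨0, by omega⟩
  let b1 : Fin d := ⟨1, by omega⟩
  refine ⟨fun _ => {b}, fun j X => X b (e j),
    fun j X => ∑ I : Fin d → ι, if I b = e j then A I * ∏ i ∈ univ.erase b, X i (I i) else 0,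
    ?_, ?_, ?_, ?_⟩
  · intro j
    refine ⟨⟨b, rfl⟩, ?_⟩
    intro h
    have h' : ({b} : Set (Fin d)) = Set.univ := h
    have : b1 ∈ ({b} : Set (Fin d)) := by rw [h']; exact Set.mem_univ _
    have h2 : b1 = b := this
    have h3 := congrArg Fin.val h2
    simp [b, b1] at h3
  · intro j X Y hXY
    exact congrFun (hXY b rfl) _
  · intro j X Y hXY
    apply sum_congr rfl
    intro I _
    split_ifs
    · congr 1
      apply prod_congr rfl
      intro i hi
      rw [hXY i (by simpa using hi)]
    · rfl
  · intro X
    unfold form
    simp_rw [mul_sum]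
    rw [sum_comm]
    apply sum_congr rfl
    intro I _
    rw [sum_eq_single (e.symm (I b))]
    · rw [Equiv.apply_symm_apply, if_pos rfl, ← mul_prod_erase univ _ (mem_univ b)]
      ring
    · intro j _ hj
      rw [if_neg, mul_zero]
      intro h
      apply hj
      rw [h, Equiv.symm_apply_apply]
    · intro h
      exact (h (mem_univ _)).elim

lemma prank_decomp (hd : 2 ≤ d) (A : Tensor F d ι) : PartitionDecomp A (prank A) :=
  Nat.sInf_mem (s := {r | PartitionDecomp A r}) ⟨_, decomp_card hd A⟩

lemma prank_le {A : Tensor F d ι} {r : ℕ} (h : PartitionDecomp A r) : prank A ≤ r :=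
  Nat.sInf_le h

lemma prank_le_card (hd : 2 ≤ d) (A : Tensor F d ι) : prank A ≤ Fintype.card ι :=
  prank_le (decomp_card hd A)

theorem card_le_prank {D : Type*} [Fintype D] [DecidableEq D] (hd : 2 ≤ d)
    (A : Tensor F d ι) (φ : Fin d → D → ι)
    (hφ : ∀ z : Fin d → D, A (fun i => φ i (z i)) = if ∀ i j, z i = z j then 1 else 0) :
    Fintype.card D ≤ prank A :=
  card_le_of_decomp (by omega) A (prank_decomp hd A) φ hφ

end Form

end Pool.Agent.Lib.MP_a9d09b_co
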