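import Pool.Agent.Lib.MP_a9d09b_co.Diag
import Pool.Agent.Lib.MP_a9d09b_co.Bias

/-!
The counterexample: the direct sum of two tensors of partition rank one, whose forms are
`(∑ X_1[k] X_2[k]) (∑ X_3[k] X_4[k] ⋯ X_d[k])` and
`(∑ X_1[k] X_3[k]) (∑ X_2[k] X_4[k] ⋯ X_d[k])`, on two disjoint blocks of `K` indices.
-/

namespace Pool.Agent.Lib.MP_a9d09b_co

open Finset

/-- `side b i` tells to which of the two factors of block `b` the `i`-th variable belongs. -/
def side {d : ℕ} (b : Bool) (i : Fin d) : Bool :=
  if b then decide (2 ≤ i.val) else decide (i.val ≠ 0 ∧ i.val ≠ 2)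

section Example

variable {F : Type*} [Field F] {d : ℕ} {κ : Type*} [Fintype κ] {K : ℕ}

/-- The direct sum of two tensors of partition rank one. -/
def exA (F : Type*) [Field F] (d : ℕ) {κ : Type*} {K : ℕ} (e : κ ≃ Bool × Fin K) :
    Tensor F d κ :=
  fun I => if ∃ b, (∀ i, (e (I i)).1 = b) ∧
    ∀ i j, side b i = side b j → (e (I i)).2 = (e (I j)).2 then 1 else 0

/-- one factor -/
def gfac (e : κ ≃ Bool × Fin K) (b s : Bool) (X : Fin d → κ → F) : F :=
  ∑ k : Fin K, ∏ i ∈ univ.filter (fun i => side b i = s), X i (e.symm (b, k))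

lemma form_exA (hd : 4 ≤ d) (e : κ ≃ Bool × Fin K) (X : Fin d → κ → F) :
    form (exA F d e) X = ∑ b : Bool, gfac e b false X * gfac e b true X := by
  classical
  let i0 : Fin d := ⟨0, by omega⟩
  let i3 : Fin d := ⟨3, by omega⟩
  have hs0 : ∀ b, side b i0 = false := by intro b; cases b <;> simp [side, i0]
  have hs3 : ∀ b, side b i3 = true := by intro b; cases b <;> simp [side, i3]
  let T : Bool × Fin K × Fin K → (Fin d → κ) :=
    fun x i => e.symm (x.1, if side x.1 i then x.2.2 else x.2.1)
  have hT : Function.Injective T := by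
    rintro ⟨b, k, l⟩ ⟨b', k', l'⟩ h
    have h0 := congrFun h i0
    have h3 := congrFun h i3
    simp only [T, hs0, hs3] at h0 h3
    have h0' := e.symm.injective h0
    have h3' := e.symm.injective h3
    simp only [Prod.mk.injEq, if_true] at h0' h3'
    obtain ⟨rfl, h0'⟩ := h0'
    simp at h0'
    rw [h0', h3'.2]
  have hP : ∀ I : Fin d → κ, (∃ b, (∀ i, (e (I i)).1 = b) ∧
      ∀ i j, side b i = side b j → (e (I i)).2 = (e (I j)).2) ↔ ∃ x, T x = I := by
    intro I
    constructor
    · rintro ⟨b, h1, h2⟩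
      refine ⟨(b, (e (I i0)).2, (e (I i3)).2), ?_⟩
      funext i
      simp only [T]
      rw [Equiv.symm_apply_eq]
      apply Prod.ext
      · exact (h1 i).symm
      · by_cases hs : side b i
        · simp only [hs, if_true]
          exact h2 _ _ (by rw [hs3, hs])
        · simp only [hs]
          exact h2 _ _ (by rw [hs0]; simpa using hs)
    · rintro ⟨⟨b, k, l⟩, rfl⟩
      refine ⟨b, ?_, ?_⟩
      · intro i
        simp [T]
      · intro i j hij
        simp [T, hij]
  have h1 : form (exA F d e) X = ∑ x, ∏ i, X i (T x i) := by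
    unfold form exA
    rw [← sum_image (s := univ) (g := T) (f := fun I => ∏ i, X i (I i))
      (fun x _ y _ h => hT h)]
    symm
    have h2 : ∑ I ∈ univ.image T, ∏ i, X i (I i) = ∑ I ∈ univ.image T,
        (if ∃ b, (∀ i, (e (I i)).1 = b) ∧
          ∀ i j, side b i = side b j → (e (I i)).2 = (e (I j)).2 then (1 : F) else 0) *
          ∏ i, X i (I i) := by
      apply sum_congr rfl
      intro I hI
      obtain ⟨x, _, hx⟩ := mem_image.1 hI
      rw [if_pos ((hP I).2 ⟨x, hx⟩), one_mul]
    rw [h2]
    apply sum_subset (subset_univ _)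
    intro I _ hI
    rw [if_neg, zero_mul]
    intro hc
    obtain ⟨x, hx⟩ := (hP I).1 hc
    exact hI (mem_image.2 ⟨x, mem_univ _, hx⟩)
  rw [h1, Fintype.sum_prod_type]
  apply sum_congr rfl
  intro b _
  rw [Fintype.sum_prod_type]
  unfold gfac
  rw [sum_mul_sum]
  apply sum_congr rfl
  intro k _
  apply sum_congr rfl
  intro l _
  rw [← prod_filter_mul_prod_filter_not univ (fun i => side b i = false)]
  congr 1
  · apply prod_congr rfl
    intro i hi
    have := (mem_filter.1 hi).2
    simp [T, this]
  · have hf : univ.filter (fun i : Fin d => ¬ side b i = false) =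
        univ.filter (fun i => side b i = true) := by
      apply filter_congr
      intro i _
      simp
    rw [hf]
    apply prod_congr rfl
    intro i hi
    have := (mem_filter.1 hi).2
    simp [T, this]

omit [Fintype κ] in
lemma gfac_depends (e : κ ≃ Bool × Fin K) (b s : Bool) (X Y : Fin d → κ → F)
    (h : ∀ i, side b i = s → X i = Y i) : gfac e b s X = gfac e b s Y := by
  unfold gfac
  apply sum_congr rfl
  intro k _
  apply prod_congr rfl
  intro i hi
  rw [h i (mem_filter.1 hi).2]

/-- The partition rank of the example is at most two. -/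
lemma exA_decomp (hd : 4 ≤ d) (e : κ ≃ Bool × Fin K) : PartitionDecomp (exA F d e) 2 := by
  classical
  let bo : Fin 2 → Bool := fun j => decide (j = 1)
  refine ⟨fun j => {i | side (bo j) i = false}, fun j => gfac e (bo j) false,
    fun j => gfac e (bo j) true, ?_, ?_, ?_, ?_⟩
  · intro j
    refine ⟨⟨⟨0, by omega⟩, ?_⟩, ?_⟩
    · show side (bo j) _ = false
      cases (bo j) <;> simp [side]
    · intro h
      have h' : {i : Fin d | side (bo j) i = false} = Set.univ := h
      have h3 : (⟨3, by omega⟩ : Fin d) ∈ {i : Fin d | side (bo j) i = false} := by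
        rw [h']; exact Set.mem_univ _
      have h4 : side (bo j) (⟨3, by omega⟩ : Fin d) = false := h3
      cases hb : (bo j) <;> simp [side, hb] at h4
  · intro j X Y h
    exact gfac_depends e _ _ X Y (fun i hi => h i hi)
  · intro j X Y h
    apply gfac_depends e _ _ X Y
    intro i hi
    apply h i
    show ¬ (side (bo j) i = false)
    simp [hi]
  · intro X
    rw [form_exA hd, Fin.sum_univ_two, Fintype.sum_bool]
    simp only [bo]
    simp [add_comm]

/-- additivity of a factor in one of its variables -/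
def gfacHom (e : κ ≃ Bool × Fin K) (b s : Bool) (i : Fin d) (hi : side b i = s)
    (X : Fin d → κ → F) : (κ → F) →+ F where
  toFun g := gfac e b s (Function.update X i g)
  map_zero' := by
    unfold gfac
    apply sum_eq_zero
    intro k _
    apply prod_eq_zero (i := i) (by simp [hi])
    rw [Function.update_self]
    rfl
  map_add' g h := by
    unfold gfac
    rw [← sum_add_distrib]
    apply sum_congr rfl
    intro k _
    have hmem : i ∈ univ.filter (fun i => side b i = s) := by simp [hi]
    rw [← mul_prod_erase _ _ hmem, ← mul_prod_erase _ _ hmem,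
      ← mul_prod_erase _ (fun j => (Function.update X i h) j (e.symm (b, k))) hmem]
    simp only [Function.update_self, Pi.add_apply]
    have hc : ∀ t : κ → F, ∏ x ∈ (univ.filter (fun i => side b i = s)).erase i,
        Function.update X i t x (e.symm (b, k)) =
        ∏ x ∈ (univ.filter (fun i => side b i = s)).erase i, X x (e.symm (b, k)) := by
      intro t
      apply prod_congr rfl
      intro x hx
      rw [Function.update_of_ne (ne_of_mem_erase hx)]
    rw [hc, hc, hc]
    ring

end Example

/-- The analytic rank of the example is at most two. -/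
lemma exA_arank {p : ℕ} [Fact p.Prime] {d : ℕ} (hd : 4 ≤ d) {κ : Type*} [Fintype κ]
    [DecidableEq κ] {K : ℕ} (e : κ ≃ Bool × Fin K) : arank (exA (ZMod p) d e) ≤ 2 := by
  classical
  let i1 : Fin d := ⟨1, by omega⟩
  let i2 : Fin d := ⟨2, by omega⟩
  let i3 : Fin d := ⟨3, by omega⟩
  have h := arank_le_of_count (exA (ZMod p) d e) i3
    (univ.filter (fun X : Fin d → κ → ZMod p =>
      gfac e true false X = 0 ∧ gfac e false false X = 0)) ?_ 2 ?_
  · exact_mod_cast h
  · intro X hX g
    obtain ⟨_, h1, h2⟩ := mem_filter.1 hX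
    rw [form_exA hd, Fintype.sum_bool]
    have hu : ∀ b, gfac e b false (Function.update X i3 g) = gfac e b false X := by
      intro b
      apply gfac_depends
      intro i hi
      have : i ≠ i3 := by
        rintro rfl
        cases b <;> simp [side, i3] at hi
      rw [Function.update_of_ne this]
    rw [hu, hu, h1, h2]
    simp
  · have c1 := count_step (p := p) (V := κ → ZMod p) i2 (fun X => gfac e false false X)
      (fun X => ⟨gfacHom e false false i2 (by simp [side, i2]) X, fun g => rfl⟩)
      (fun _ => True) (fun _ _ => Iff.rfl)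
    have c2 := count_step (p := p) (V := κ → ZMod p) i1 (fun X => gfac e true false X)
      (fun X => ⟨gfacHom e true false i1 (by simp [side, i1]) X, fun g => rfl⟩)
      (fun X => gfac e false false X = 0) (fun X g => by
        rw [gfac_depends e false false (Function.update X i1 g) X]
        intro i hi
        have : i ≠ i1 := by
          rintro rfl
          simp [side, i1] at hi
        rw [Function.update_of_ne this])
    simp only [and_true, filter_true, card_univ] at c1
    calc Fintype.card (Fin d → κ → ZMod p)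
        ≤ p * (univ.filter (fun X : Fin d → κ → ZMod p => gfac e false false X = 0)).card := c1
      _ ≤ p * (p * (univ.filter (fun X : Fin d → κ → ZMod p =>
          gfac e true false X = 0 ∧ gfac e false false X = 0)).card) :=
        Nat.mul_le_mul_left _ c2
      _ = p ^ 2 * (univ.filter (fun X : Fin d → κ → ZMod p =>
          gfac e true false X = 0 ∧ gfac e false false X = 0)).card := by ring

section Cycle

/-- pairs `(s, t)` with `t` on a sphere -/
abbrev ZZ (v q R : ℕ) :=
  {st : (Fin v → Fin (3 * q)) × (Fin v → Fin q) // ∑ i, (st.2 i : ℕ) ^ 2 = R}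

/-- the vertex `s + j t` -/
def vtx {v q R : ℕ} (j : Fin 4) (z : ZZ v q R) : Fin v → Fin (6 * q) :=
  fun i => ⟨(z.1.1 i).val + j.val * (z.1.2 i).val, by
    have h1 := (z.1.1 i).isLt
    have h2 := (z.1.2 i).isLt
    have h3 := j.isLt
    have h4 : j.val * (z.1.2 i).val ≤ 3 * (z.1.2 i).val :=
      Nat.mul_le_mul_right _ (by omega)
    omega⟩

lemma vtx_eq {v q R : ℕ} {j : Fin 4} {z z' : ZZ v q R} (h : vtx j z = vtx j z') (i : Fin v) :
    (z.1.1 i).val + j.val * (z.1.2 i).val = (z'.1.1 i).val + j.val * (z'.1.2 i).val := by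
  have := congrArg Fin.val (congrFun h i)
  simpa [vtx] using this

/-- The four-cycles `s, s + t, s + 2t, s + 3t` are edge-disjoint and span no further
four-cycles. -/
lemma cycle_rigid {v q R : ℕ} {z1 z2 z3 z4 : ZZ v q R} (h1 : vtx 0 z1 = vtx 0 z2)
    (h2 : vtx 1 z1 = vtx 1 z3) (h3 : vtx 2 z3 = vtx 2 z4) (h4 : vtx 3 z2 = vtx 3 z4) :
    z1 = z2 ∧ z1 = z3 ∧ z1 = z4 := by
  have e1 := vtx_eq h1
  have e2 := vtx_eq h2
  have e3 := vtx_eq h3
  have e4 := vtx_eq h4
  have v0 : ((0 : Fin 4) : ℕ) = 0 := rfl
  have v1 : ((1 : Fin 4) : ℕ) = 1 := rfl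
  have v2 : ((2 : Fin 4) : ℕ) = 2 := rfl
  have v3 : ((3 : Fin 4) : ℕ) = 3 := rfl
  simp only [v0, v1, v2, v3, zero_mul, add_zero, one_mul] at e1 e2 e3 e4
  have hlin : ∀ i, (z1.1.2 i : ℤ) + (z3.1.2 i : ℤ) + (z4.1.2 i : ℤ) = 3 * (z2.1.2 i : ℤ) := by
    intro i
    have a1 := e1 i
    have a2 := e2 i
    have a3 := e3 i
    have a4 := e4 i
    omega
  have q1 : ∑ i, (z1.1.2 i : ℤ) ^ 2 = R := by exact_mod_cast z1.2
  have q2 : ∑ i, (z2.1.2 i : ℤ) ^ 2 = R := by exact_mod_cast z2.2
  have q3 : ∑ i, (z3.1.2 i : ℤ) ^ 2 = R := by exact_mod_cast z3.2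
  have q4 : ∑ i, (z4.1.2 i : ℤ) ^ 2 = R := by exact_mod_cast z4.2
  have hsum : ∑ i, (((z1.1.2 i : ℤ) - (z3.1.2 i : ℤ)) ^ 2 +
      ((z3.1.2 i : ℤ) - (z4.1.2 i : ℤ)) ^ 2 + ((z1.1.2 i : ℤ) - (z4.1.2 i : ℤ)) ^ 2) = 0 := by
    have : ∀ i, (((z1.1.2 i : ℤ) - (z3.1.2 i : ℤ)) ^ 2 +
      ((z3.1.2 i : ℤ) - (z4.1.2 i : ℤ)) ^ 2 + ((z1.1.2 i : ℤ) - (z4.1.2 i : ℤ)) ^ 2) =
        3 * (z1.1.2 i : ℤ) ^ 2 + 3 * (z3.1.2 i : ℤ) ^ 2 + 3 * (z4.1.2 i : ℤ) ^ 2 -
          9 * (z2.1.2 i : ℤ) ^ 2 := by
      intro i
      have h := hlin i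
      have h' : 9 * (z2.1.2 i : ℤ) ^ 2 = (3 * (z2.1.2 i : ℤ)) ^ 2 := by ring
      rw [h', ← h]
      ring
    simp_rw [this]
    rw [sum_sub_distrib, sum_add_distrib, sum_add_distrib, ← mul_sum, ← mul_sum, ← mul_sum,
      ← mul_sum, q1, q2, q3, q4]
    ring
  have hz := (sum_eq_zero_iff_of_nonneg (fun i _ => by positivity)).1 hsum
  have t13 : ∀ i, (z1.1.2 i).val = (z3.1.2 i).val := by
    intro i
    have h := hz i (mem_univ i)
    have h5 : ((z1.1.2 i : ℤ) - (z3.1.2 i : ℤ)) ^ 2 = 0 := by
      nlinarith [sq_nonneg ((z1.1.2 i : ℤ) - (z3.1.2 i : ℤ)),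
        sq_nonneg ((z3.1.2 i : ℤ) - (z4.1.2 i : ℤ)), sq_nonneg ((z1.1.2 i : ℤ) - (z4.1.2 i : ℤ))]
    have h6 := pow_eq_zero_iff (two_ne_zero) |>.1 h5
    omega
  have t14 : ∀ i, (z1.1.2 i).val = (z4.1.2 i).val := by
    intro i
    have h := hz i (mem_univ i)
    have h5 : ((z1.1.2 i : ℤ) - (z4.1.2 i : ℤ)) ^ 2 = 0 := by
      nlinarith [sq_nonneg ((z1.1.2 i : ℤ) - (z3.1.2 i : ℤ)),
        sq_nonneg ((z3.1.2 i : ℤ) - (z4.1.2 i : ℤ)), sq_nonneg ((z1.1.2 i : ℤ) - (z4.1.2 i : ℤ))]
    have h6 := pow_eq_zero_iff (two_ne_zero) |>.1 h5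
    omega
  refine ⟨?_, ?_, ?_⟩
  · apply Subtype.ext
    apply Prod.ext
    · funext i
      apply Fin.ext
      exact e1 i
    · funext i
      apply Fin.ext
      have a0 := hlin i
      have a1 := t13 i
      have a2 := t14 i
      omega
  · apply Subtype.ext
    apply Prod.ext
    · funext i
      apply Fin.ext
      have a1 := t13 i
      have a2 := e2 i
      omega
    · funext i
      apply Fin.ext
      exact t13 i
  · apply Subtype.ext
    apply Prod.ext
    · funext i
      apply Fin.ext
      have a1 := t13 i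
      have a2 := e2 i
      have a3 := e3 i
      have a4 := t14 i
      omega
    · funext i
      apply Fin.ext
      exact t14 i

/-- Some sphere carries many points. -/
lemma exists_sphere {v q : ℕ} (hv : 1 ≤ v) (hq : 1 ≤ q) :
    ∃ R, (3 * q) ^ v * q ^ v ≤ (v * q ^ 2) * Fintype.card (ZZ v q R) := by
  classical
  by_contra hcon
  push Not at hcon
  have h1 : Fintype.card ((Fin v → Fin (3 * q)) × (Fin v → Fin q)) = (3 * q) ^ v * q ^ v := by
    simp
  let f : (Fin v → Fin (3 * q)) × (Fin v → Fin q) → ℕ := fun st => ∑ i, (st.2 i : ℕ) ^ 2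
  have hmaps : ∀ st ∈ (univ : Finset ((Fin v → Fin (3 * q)) × (Fin v → Fin q))),
      f st ∈ range (v * q ^ 2) := by
    intro st _
    rw [mem_range]
    have : ∑ i, (st.2 i : ℕ) ^ 2 < ∑ _i : Fin v, q ^ 2 := by
      apply sum_lt_sum_of_nonempty
      · exact ⟨⟨0, hv⟩, mem_univ _⟩
      · intro i _
        exact Nat.pow_lt_pow_left (st.2 i).isLt (by norm_num)
    simpa using this
  have h2 := card_eq_sum_card_fiberwise hmaps
  rw [card_univ, h1] at h2
  have hpos : 0 < v * q ^ 2 := by positivity
  have h3 : (v * q ^ 2) * ((3 * q) ^ v * q ^ v) < (v * q ^ 2) * ((3 * q) ^ v * q ^ v) := by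
    calc (v * q ^ 2) * ((3 * q) ^ v * q ^ v)
        = (v * q ^ 2) * ∑ R ∈ range (v * q ^ 2), (univ.filter (fun st => f st = R)).card := by
          rw [← h2]
      _ = ∑ R ∈ range (v * q ^ 2), (v * q ^ 2) * (univ.filter (fun st => f st = R)).card := by
          rw [mul_sum]
      _ < ∑ _R ∈ range (v * q ^ 2), ((3 * q) ^ v * q ^ v) := by
          apply sum_lt_sum_of_nonempty
          · exact ⟨0, mem_range.2 hpos⟩
          · intro R _
            have := hcon R
            rw [Fintype.card_subtype] at this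
            exact this
      _ = (v * q ^ 2) * ((3 * q) ^ v * q ^ v) := by simp
  exact lt_irrefl _ h3

end Cycle

section Power

variable {F : Type*} [Field F] {d : ℕ} {κ : Type*} {K : ℕ}

/-- An injection of the vertex set into words over `Fin K` that is already determined on a
given set of `M` positions. -/
lemma exists_code {V : Type*} [Fintype V] {m M K : ℕ} (hK : 1 ≤ K) (P : Fin m → Prop)
    [DecidablePred P] (hP : Fintype.card {k // P k} = M) (hV : Fintype.card V ≤ K ^ M) :
    ∃ α : V → Fin m → Fin K, ∀ x y, (∀ k, P k → α x k = α y k) → x = y := by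
  classical
  have hcard : Fintype.card V ≤ Fintype.card ({k // P k} → Fin K) := by
    simp only [Fintype.card_pi, Fintype.card_fin, prod_const, card_univ, hP]
    exact hV
  obtain ⟨f⟩ := Function.Embedding.nonempty_of_card_le hcard
  refine ⟨fun x k => if h : P k then f x ⟨k, h⟩ else ⟨0, hK⟩, ?_⟩
  intro x y h
  apply f.injective
  funext k
  have := h k.1 k.2
  simpa [k.2] using this

/-- The tensor power of the example contains a large identity subtensor. -/
lemma exists_diag (hd : 4 ≤ d) (e : κ ≃ Bool × Fin K) (hK : 1 ≤ K) {M v q R : ℕ}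
    (hV : (6 * q) ^ v ≤ K ^ M) :
    ∃ φ : Fin d → ({w : Finset (Fin (2 * M)) // w.card = M} × ZZ v q R) → (Fin (2 * M) → κ),
      ∀ z : Fin d → ({w : Finset (Fin (2 * M)) // w.card = M} × ZZ v q R),
        tpow (exA F d e) (2 * M) (fun i => φ i (z i)) = if ∀ i j, z i = z j then 1 else 0 := by
  classical
  have hVc : Fintype.card (Fin v → Fin (6 * q)) ≤ K ^ M := by simpa using hV
  have hα : ∀ w : {w : Finset (Fin (2 * M)) // w.card = M},
      ∃ α : (Fin v → Fin (6 * q)) → Fin (2 * M) → Fin K,
        ∀ x y, (∀ k, k ∈ w.1 → α x k = α y k) → x = y := by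
    intro w
    apply exists_code hK (fun k => k ∈ w.1) (M := M) _ hVc
    rw [Fintype.card_coe]
    exact w.2
  have hβ : ∀ w : {w : Finset (Fin (2 * M)) // w.card = M},
      ∃ β : (Fin v → Fin (6 * q)) → Fin (2 * M) → Fin K,
        ∀ x y, (∀ k, k ∉ w.1 → β x k = β y k) → x = y := by
    intro w
    apply exists_code hK (fun k => k ∉ w.1) (M := M) _ hVc
    rw [Fintype.card_subtype_compl, Fintype.card_coe, w.2, Fintype.card_fin]
    omega
  choose α hα using hα
  choose β hβ using hβ
  let vt : Fin d → ZZ v q R → (Fin v → Fin (6 * q)) := fun i z =>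
    if side true i then vtx 2 z else vtx 0 z
  let vf : Fin d → ZZ v q R → (Fin v → Fin (6 * q)) := fun i z =>
    if side false i then vtx 3 z else vtx 1 z
  refine ⟨fun i x k => e.symm (decide (k ∈ x.1.1),
    if k ∈ x.1.1 then α x.1 (vt i x.2) k else β x.1 (vf i x.2) k), ?_⟩
  intro z
  unfold tpow exA
  simp only [Equiv.apply_symm_apply]
  by_cases hz : ∀ i j, z i = z j
  · rw [if_pos hz]
    apply prod_eq_one
    intro k _
    rw [if_pos]
    let i0 : Fin d := ⟨0, by omega⟩
    refine ⟨decide (k ∈ (z i0).1.1), fun i => by rw [hz i i0], ?_⟩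
    intro i j hij
    rw [hz i i0, hz j i0]
    by_cases hk : k ∈ (z i0).1.1
    · have hside : side true i = side true j := by simpa [hk] using hij
      simp only [hk, if_true, vt, hside]
    · have hside : side false i = side false j := by simpa [hk] using hij
      simp only [hk, if_false, vf, hside]
  · rw [if_neg hz]
    by_contra hne
    apply hz
    rw [← ne_eq, prod_ne_zero_iff] at hne
    have hk : ∀ k : Fin (2 * M), ∃ b, (∀ i, decide (k ∈ (z i).1.1) = b) ∧
        ∀ i j, side b i = side b j →
          (if k ∈ (z i).1.1 then α (z i).1 (vt i (z i).2) k else β (z i).1 (vf i (z i).2) k) =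
          (if k ∈ (z j).1.1 then α (z j).1 (vt j (z j).2) k
            else β (z j).1 (vf j (z j).2) k) := by
      intro k
      by_contra hc
      exact hne k (mem_univ k) (if_neg hc)
    -- all words agree
    have hw : ∀ i j, (z i).1 = (z j).1 := by
      intro i j
      apply Subtype.ext
      ext k
      obtain ⟨b, hb, _⟩ := hk k
      have h1 := hb i
      have h2 := hb j
      rw [← h2] at h1
      exact decide_eq_decide.1 h1
    have hT : ∀ i j, side true i = side true j → vt i (z i).2 = vt j (z j).2 := by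
      intro i j hij
      apply hα (z i).1
      intro k hki
      obtain ⟨b, hb, hb2⟩ := hk k
      have hbt : b = true := by rw [← hb i]; simpa using hki
      subst hbt
      have h3 := hb2 i j hij
      have hkj : k ∈ (z j).1.1 := by rw [← hw i j]; exact hki
      rw [if_pos hki, if_pos hkj, ← hw i j] at h3
      exact h3
    have hF : ∀ i j, side false i = side false j → vf i (z i).2 = vf j (z j).2 := by
      intro i j hij
      apply hβ (z i).1
      intro k hki
      obtain ⟨b, hb, hb2⟩ := hk k
      have hbt : b = false := by rw [← hb i]; simpa using hki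
      subst hbt
      have h3 := hb2 i j hij
      have hkj : k ∉ (z j).1.1 := by rw [← hw i j]; exact hki
      rw [if_neg hki, if_neg hkj, ← hw i j] at h3
      exact h3
    let i0 : Fin d := ⟨0, by omega⟩
    let i1 : Fin d := ⟨1, by omega⟩
    let i2 : Fin d := ⟨2, by omega⟩
    have main : ∀ i : Fin d, 3 ≤ i.val → (z i0).2 = (z i1).2 ∧ (z i0).2 = (z i2).2 ∧
        (z i0).2 = (z i).2 := by
      intro i hi
      have g1 := hT i0 i1 (by simp [side, i0, i1])
      have g2 := hF i0 i2 (by simp [side, i0, i2])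
      have g3 := hT i2 i (by simp [side, i2]; omega)
      have g4 := hF i1 i (by simp [side, i1]; omega)
      have s1 : side true i0 = false := by simp [side, i0]
      have s2 : side true i1 = false := by simp [side, i1]
      have s3 : side false i0 = false := by simp [side, i0]
      have s4 : side false i2 = false := by simp [side, i2]
      have s5 : side true i2 = true := by simp [side, i2]
      have s6 : side true i = true := by simp [side]; omega
      have s7 : side false i1 = true := by simp [side, i1]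
      have s8 : side false i = true := by simp [side]; omega
      simp only [vt, vf, s1, s2, s3, s4, s5, s6, s7, s8, if_true] at g1 g2 g3 g4
      exact cycle_rigid g1 g2 g3 g4
    let i3 : Fin d := ⟨3, by omega⟩
    have all0 : ∀ i : Fin d, (z i0).2 = (z i).2 := by
      intro i
      by_cases h3 : 3 ≤ i.val
      · exact (main i h3).2.2
      · have m3 := main i3 (le_refl 3)
        have hi : i = i0 ∨ i = i1 ∨ i = i2 := by
          simp only [Fin.ext_iff, i0, i1, i2]
          omega
        rcases hi with rfl | rfl | rfl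
        · rfl
        · exact m3.1
        · exact m3.2.1
    intro i j
    apply Prod.ext
    · exact hw i j
    · rw [← all0 i, ← all0 j]

end Power

end Pool.Agent.Lib.MP_a9d09b_co
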