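import Pool.Agent.Lib.MP_a9d09b_co.Example

/-!
Assembly of the counterexample.
-/

namespace Pool.Agent.Lib.MP_a9d09b_co

open Finset

section Asymptotics

/-- For `0 < c < 1` and `K = 6 K'` there are parameters for which the number of diagonal
positions exceeds `c ^ m (2 K) ^ m`. -/
lemma exists_params {K' : ℕ} (hK' : 1 ≤ K') {c : ℝ} (hc0 : 0 < c) (hc1 : c < 1) :
    ∃ M v q R : ℕ, 1 ≤ M ∧ (6 * q) ^ v ≤ (6 * K') ^ M ∧
      c ^ (2 * M) * (2 * (6 * K') : ℕ) ^ (2 * M) ≤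
        ((Nat.choose (2 * M) M * Fintype.card (ZZ v q R) : ℕ) : ℝ) := by
  set K : ℕ := 6 * K' with hK
  have hKpos : 0 < K := by omega
  -- choose `v`
  have hc2 : c ^ 2 < 1 := by nlinarith
  have hε : (0 : ℝ) < 1 / (16 * (12 * (K : ℝ) ^ 2)) := by positivity
  obtain ⟨n, hn⟩ := exists_pow_lt_of_lt_one hε hc2
  set v : ℕ := n + 1 with hv
  have hcv : (c ^ 2) ^ v * (12 * (K : ℝ) ^ 2) ≤ 1 / 16 := by
    have h1 : (c ^ 2) ^ v ≤ (c ^ 2) ^ n := by
      apply pow_le_pow_of_le_one (by positivity) hc2.le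
      omega
    have h2 : (c ^ 2) ^ v ≤ 1 / (16 * (12 * (K : ℝ) ^ 2)) := h1.trans hn.le
    calc (c ^ 2) ^ v * (12 * (K : ℝ) ^ 2)
        ≤ 1 / (16 * (12 * (K : ℝ) ^ 2)) * (12 * (K : ℝ) ^ 2) := by gcongr
      _ = 1 / 16 := by
        have : (K : ℝ) ≠ 0 := by positivity
        field_simp
  set q : ℕ := K' * K ^ (v - 1) with hq
  have hq1 : 1 ≤ q := by
    have : 0 < K ^ (v - 1) := by positivity
    nlinarith
  have h6q : 6 * q = K ^ v := by
    rw [hq, ← mul_assoc, ← hK]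
    have : v = (v - 1) + 1 := by omega
    conv_rhs => rw [this, pow_succ]
    ring
  obtain ⟨R, hR⟩ := exists_sphere (v := v) (q := q) (by omega) hq1
  set Zc := Fintype.card (ZZ v q R) with hZc
  refine ⟨v * v, v, q, R, ?_, ?_, ?_⟩
  · have : 1 ≤ v := by omega
    nlinarith
  · rw [h6q, ← pow_mul]
  · set M := v * v with hM
    have hMpos : 0 < M := by
      have : 0 < v := by omega
      positivity
    -- `K ^ (2 M) ≤ v q ^ 2 12 ^ v Zc`
    have hA : K ^ (2 * M) ≤ 12 ^ v * ((v * q ^ 2) * Zc) := by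
      calc K ^ (2 * M) = (6 * q) ^ v * (6 * q) ^ v := by
            rw [h6q, ← pow_mul, ← pow_add, hM]
            congr 1
            ring
        _ = 12 ^ v * ((3 * q) ^ v * q ^ v) := by
            rw [← mul_pow, ← mul_pow, ← mul_pow]
            congr 1
            ring
        _ ≤ 12 ^ v * ((v * q ^ 2) * Zc) := Nat.mul_le_mul_left _ hR
    have hB : 4 ^ M ≤ 2 * M * Nat.choose (2 * M) M := by
      have := Nat.four_pow_le_two_mul_self_mul_centralBinom M hMpos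
      rwa [Nat.centralBinom_eq_two_mul_choose] at this
    have hqK : q ^ 2 ≤ K ^ (2 * v) := by
      have : q ≤ K ^ v := by omega
      calc q ^ 2 ≤ (K ^ v) ^ 2 := Nat.pow_le_pow_left this 2
        _ = K ^ (2 * v) := by rw [← pow_mul]; congr 1; ring
    have hC : (2 * K) ^ (2 * M) ≤
        (2 * M * (12 ^ v * (v * K ^ (2 * v)))) * (Nat.choose (2 * M) M * Zc) := by
      calc (2 * K) ^ (2 * M) = 4 ^ M * K ^ (2 * M) := by
            rw [mul_pow, pow_mul 2 2 M]
            norm_num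
        _ ≤ (2 * M * Nat.choose (2 * M) M) * (12 ^ v * ((v * q ^ 2) * Zc)) :=
            Nat.mul_le_mul hB hA
        _ ≤ (2 * M * Nat.choose (2 * M) M) * (12 ^ v * ((v * K ^ (2 * v)) * Zc)) := by
            gcongr
        _ = (2 * M * (12 ^ v * (v * K ^ (2 * v)))) * (Nat.choose (2 * M) M * Zc) := by ring
    have hCr : ((2 * K : ℕ) : ℝ) ^ (2 * M) ≤
        (2 * (M : ℝ) * (12 ^ v * ((v : ℝ) * (K : ℝ) ^ (2 * v)))) *
          ((Nat.choose (2 * M) M * Zc : ℕ) : ℝ) := by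
      exact_mod_cast hC
    -- the factor in front is killed by `c ^ (2 M)`
    have hv3 : 2 * (v : ℝ) ^ 3 ≤ 16 ^ v := by
      have h1 : v < 2 ^ v := Nat.lt_two_pow_self
      have h2 : v ^ 3 ≤ (2 ^ v) ^ 3 := Nat.pow_le_pow_left h1.le 3
      have h3 : 2 ≤ 2 ^ v := by
        calc 2 = 2 ^ 1 := by norm_num
          _ ≤ 2 ^ v := Nat.pow_le_pow_right (by norm_num) (by omega)
      have h4 : 2 * v ^ 3 ≤ 16 ^ v := by
        calc 2 * v ^ 3 ≤ 2 ^ v * (2 ^ v) ^ 3 := Nat.mul_le_mul h3 h2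
          _ = 16 ^ v := by
            rw [← pow_mul, ← pow_add]
            have : v + v * 3 = 4 * v := by ring
            rw [this, pow_mul]
            norm_num
      exact_mod_cast h4
    have hfac : c ^ (2 * M) * (2 * (M : ℝ) * (12 ^ v * ((v : ℝ) * (K : ℝ) ^ (2 * v)))) ≤ 1 := by
      have e1 : c ^ (2 * M) * (2 * (M : ℝ) * (12 ^ v * ((v : ℝ) * (K : ℝ) ^ (2 * v)))) =
          ((c ^ 2) ^ v * (12 * (K : ℝ) ^ 2)) ^ v * (2 * (v : ℝ) ^ 3) := by
        rw [hM]
        push_cast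
        rw [mul_pow, mul_pow, ← pow_mul, ← pow_mul, ← pow_mul]
        ring
      rw [e1]
      calc ((c ^ 2) ^ v * (12 * (K : ℝ) ^ 2)) ^ v * (2 * (v : ℝ) ^ 3)
          ≤ (1 / 16) ^ v * 16 ^ v := by
            gcongr
        _ = 1 := by
            rw [← mul_pow]
            norm_num
    calc c ^ (2 * M) * ((2 * K : ℕ) : ℝ) ^ (2 * M)
        ≤ c ^ (2 * M) * ((2 * (M : ℝ) * (12 ^ v * ((v : ℝ) * (K : ℝ) ^ (2 * v)))) *
          ((Nat.choose (2 * M) M * Zc : ℕ) : ℝ)) := by gcongr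
      _ = (c ^ (2 * M) * (2 * (M : ℝ) * (12 ^ v * ((v : ℝ) * (K : ℝ) ^ (2 * v))))) *
          ((Nat.choose (2 * M) M * Zc : ℕ) : ℝ) := by ring
      _ ≤ 1 * ((Nat.choose (2 * M) M * Zc : ℕ) : ℝ) := by gcongr
      _ = ((Nat.choose (2 * M) M * Zc : ℕ) : ℝ) := one_mul _

end Asymptotics

/-- index equivalence -/
def eqv (K : ℕ) : Fin (2 * K) ≃ Bool × Fin K :=
  finProdFinEquiv.symm.trans (Equiv.prodCongr finTwoEquiv (Equiv.refl _))

lemma card_D (M v q R : ℕ) :
    Fintype.card ({w : Finset (Fin (2 * M)) // w.card = M} × ZZ v q R) =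
      Nat.choose (2 * M) M * Fintype.card (ZZ v q R) := by
  rw [Fintype.card_prod, Fintype.card_finset_len, Fintype.card_fin]

theorem main_prank (F : Type*) [Field F] (d : ℕ) (hd : 4 ≤ d) :
    ∃ n : ℕ, 1 ≤ n ∧ ∃ A : Tensor F d (Fin n),
      prank A < prank (idT : Tensor F d (Fin n)) ∧
      ∀ c : ℝ, c < 1 → ∃ m : ℕ, 1 ≤ m ∧
        c ^ m * (prank (tpow (idT : Tensor F d (Fin n)) m) : ℝ) ≤ (prank (tpow A m) : ℝ) := by
  classical
  have hd2 : 2 ≤ d := by omega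
  refine ⟨2 * (6 * 1), by norm_num, exA F d (eqv (6 * 1)), ?_, ?_⟩
  · have h1 : prank (exA F d (eqv (6 * 1))) ≤ 2 := prank_le (exA_decomp hd _)
    have h2 : Fintype.card (Fin (2 * (6 * 1))) ≤
        prank (idT : Tensor F d (Fin (2 * (6 * 1)))) :=
      card_le_prank hd2 _ (fun _ z => z) (fun z => rfl)
    rw [Fintype.card_fin] at h2
    omega
  · intro c hc
    rcases le_or_gt c 0 with hc0 | hc0
    · refine ⟨1, le_rfl, ?_⟩
      rw [pow_one]
      have h1 : c * (prank (tpow (idT : Tensor F d (Fin (2 * (6 * 1)))) 1) : ℝ) ≤ 0 :=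
        mul_nonpos_of_nonpos_of_nonneg hc0 (Nat.cast_nonneg _)
      exact h1.trans (Nat.cast_nonneg _)
    · obtain ⟨M, v, q, R, hM, hV, hineq⟩ := exists_params (K' := 1) le_rfl hc0 hc
      refine ⟨2 * M, by omega, ?_⟩
      obtain ⟨φ, hφ⟩ := exists_diag (F := F) hd (eqv (6 * 1)) (by norm_num) hV
      have h1 := card_le_prank hd2 (tpow (exA F d (eqv (6 * 1))) (2 * M)) φ hφ
      rw [card_D] at h1
      have h2 : prank (tpow (idT : Tensor F d (Fin (2 * (6 * 1)))) (2 * M)) ≤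
          (2 * (6 * 1)) ^ (2 * M) := by
        refine (prank_le_card hd2 _).trans ?_
        simp
      have h2r : (prank (tpow (idT : Tensor F d (Fin (2 * (6 * 1)))) (2 * M)) : ℝ) ≤
          ((2 * (6 * 1) : ℕ) : ℝ) ^ (2 * M) := by exact_mod_cast h2
      have h1r : ((Nat.choose (2 * M) M * Fintype.card (ZZ v q R) : ℕ) : ℝ) ≤
          (prank (tpow (exA F d (eqv (6 * 1))) (2 * M)) : ℝ) := by exact_mod_cast h1
      refine le_trans ?_ h1r
      refine le_trans ?_ hineq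
      gcongr

theorem main_arank (p : ℕ) [Fact p.Prime] (d : ℕ) (hd : 4 ≤ d) :
    ∃ n : ℕ, 1 ≤ n ∧ ∃ A : Tensor (ZMod p) d (Fin n),
      arank A < arank (idT : Tensor (ZMod p) d (Fin n)) ∧
      ∀ c : ℝ, c < 1 → ∃ m : ℕ, 1 ≤ m ∧
        c ^ m * arank (tpow (idT : Tensor (ZMod p) d (Fin n)) m) ≤ arank (tpow A m) := by
  classical
  have hd2 : 2 ≤ d := by omega
  obtain ⟨γ, hγ, hid⟩ := arank_idT p d hd2
  obtain ⟨K0, hK0⟩ := exists_nat_gt (2 / γ)
  set K' : ℕ := K0 + 1 with hK'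
  have hbig : 2 < ((2 * (6 * K') : ℕ) : ℝ) * γ := by
    have h1 : 2 < (K0 : ℝ) * γ := by
      rwa [div_lt_iff₀ hγ] at hK0
    have h2 : (K0 : ℝ) ≤ ((2 * (6 * K') : ℕ) : ℝ) := by
      have : K0 ≤ 2 * (6 * K') := by omega
      exact_mod_cast this
    nlinarith
  have hnonneg : ∀ (ι : Type) [Fintype ι] [DecidableEq ι] (A : Tensor (ZMod p) d ι),
      0 ≤ arank A := by
    intro ι _ _ A
    have h := arank_comap_le hd2 A (D := Empty) (fun _ z => z.elim)
    have h2 : (comap A (fun _ (z : Empty) => z.elim) : Tensor (ZMod p) d Empty) = idT := by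
      funext I
      exact (I ⟨0, by omega⟩).elim
    rw [h2, hid Empty] at h
    simpa using h
  refine ⟨2 * (6 * K'), by omega, exA (ZMod p) d (eqv (6 * K')), ?_, ?_⟩
  · refine lt_of_le_of_lt (exA_arank hd _) ?_
    rw [hid, Fintype.card_fin]
    exact hbig
  · intro c hc
    rcases le_or_gt c 0 with hc0 | hc0
    · refine ⟨1, le_rfl, ?_⟩
      rw [pow_one]
      refine le_trans ?_ (hnonneg _ _)
      exact mul_nonpos_of_nonpos_of_nonneg hc0 (hnonneg _ _)
    · obtain ⟨M, v, q, R, hM, hV, hineq⟩ := exists_params (K' := K') (by omega) hc0 hc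
      refine ⟨2 * M, by omega, ?_⟩
      obtain ⟨φ, hφ⟩ := exists_diag (F := ZMod p) hd (eqv (6 * K')) (by omega) hV
      have h1 := arank_comap_le hd2 (tpow (exA (ZMod p) d (eqv (6 * K'))) (2 * M)) φ
      have h2 : comap (tpow (exA (ZMod p) d (eqv (6 * K'))) (2 * M)) φ = idT := by
        funext z
        unfold comap idT
        rw [hφ z]
      rw [h2, hid, card_D] at h1
      rw [tpow_idT, hid]
      refine le_trans ?_ h1
      have h3 : (Fintype.card (Fin (2 * M) → Fin (2 * (6 * K'))) : ℝ) =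
          ((2 * (6 * K') : ℕ) : ℝ) ^ (2 * M) := by
        simp
      rw [h3, ← mul_assoc]
      exact mul_le_mul_of_nonneg_right hineq hγ.le

end Pool.Agent.Lib.MP_a9d09b_co
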