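import Pool.Agent.Lib.MP_a9d09b_co.Diag

/-!
The partition rank does not change if the factors `g_j`, `h_j` are required to be multilinear
in the variables they depend on.
-/

namespace Pool.Agent.Lib.MP_a9d09b_co

open Finset

variable {F : Type*} [Field F] {d : ℕ} {ι : Type*} [Fintype ι]

/-- Decomposition into `r` products of multilinear forms in complementary, non-trivial sets of
variables. -/
def MultilinearDecomp (A : Tensor F d ι) (r : ℕ) : Prop :=
  ∃ (S : Fin r → Set (Fin d)), (∀ j, (S j).Nonempty ∧ S j ≠ Set.univ) ∧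
    ∃ (g : ∀ j, MultilinearMap F (fun _ : {i // i ∈ S j} => ι → F) F)
      (h : ∀ j, MultilinearMap F (fun _ : {i // ¬ i ∈ S j} => ι → F) F),
      ∀ X, form A X = ∑ j, g j (fun i => X i.1) * h j (fun i => X i.1)

/-- the multilinear form with coefficients `a` -/
noncomputable def mform {α : Type*} [Fintype α] [DecidableEq α] (a : (α → ι) → F) :
    MultilinearMap F (fun _ : α => ι → F) F :=
  ∑ I : α → ι, a I • ((MultilinearMap.mkPiAlgebra F α F).compLinearMap
    (fun i => (LinearMap.proj (I i) : (ι → F) →ₗ[F] F)))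

lemma mform_apply {α : Type*} [Fintype α] [DecidableEq α] (a : (α → ι) → F)
    (X : α → ι → F) : mform a X = ∑ I : α → ι, a I * ∏ i, X i (I i) := by
  unfold mform
  simp

theorem decomp_iff_multilinear (A : Tensor F d ι) (r : ℕ) :
    PartitionDecomp A r ↔ MultilinearDecomp A r := by
  classical
  constructor
  · rintro ⟨S, g, h, hS, hg, hh, hx⟩
    refine ⟨S, hS, fun j => mform (fun I => g j (fun i =>
        if hi : i ∈ S j then Pi.single (I ⟨i, hi⟩) 1 else 0)),
      fun j => mform (fun I => h j (fun i =>
        if hi : ¬ i ∈ S j then Pi.single (I ⟨i, hi⟩) 1 else 0)), ?_⟩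
    intro X
    have hA : ∀ I, A I = ∑ j, g j (fun i => Pi.single (I i) 1) *
        h j (fun i => Pi.single (I i) 1) := by
      intro I
      rw [← hx, form_single]
    unfold form
    simp_rw [hA, sum_mul]
    rw [sum_comm]
    apply sum_congr rfl
    intro j _
    rw [mform_apply, mform_apply, sum_mul_sum]
    let E := Equiv.piEquivPiSubtypeProd (fun i : Fin d => i ∈ S j) (fun _ => ι)
    rw [← Equiv.sum_comp E.symm, Fintype.sum_prod_type]
    apply sum_congr rfl
    intro I1 _
    apply sum_congr rfl
    intro I2 _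
    have hE1 : ∀ i (hi : i ∈ S j), E.symm (I1, I2) i = I1 ⟨i, hi⟩ := by
      intro i hi
      simp [E, Equiv.piEquivPiSubtypeProd, hi]
    have hE2 : ∀ i (hi : ¬ i ∈ S j), E.symm (I1, I2) i = I2 ⟨i, hi⟩ := by
      intro i hi
      simp [E, Equiv.piEquivPiSubtypeProd, hi]
    have e1 : g j (fun i => Pi.single (E.symm (I1, I2) i) 1) = g j (fun i =>
        if hi : i ∈ S j then Pi.single (I1 ⟨i, hi⟩) 1 else 0) := by
      apply hg j
      intro i hi
      simp only [hi, dif_pos, hE1 i hi]
    have e2 : h j (fun i => Pi.single (E.symm (I1, I2) i) 1) = h j (fun i =>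
        if hi : ¬ i ∈ S j then Pi.single (I2 ⟨i, hi⟩) 1 else 0) := by
      apply hh j
      intro i hi
      have hi' : ¬ i ∈ S j := hi
      simp only [hi', not_false_eq_true, dif_pos, hE2 i hi']
    have e3 : ∏ i, X i (E.symm (I1, I2) i) =
        (∏ i : {i // i ∈ S j}, X i.1 (I1 i)) * ∏ i : {i // ¬ i ∈ S j}, X i.1 (I2 i) := by
      rw [← Fintype.prod_subtype_mul_prod_subtype (fun i => i ∈ S j)
        (fun i => X i (E.symm (I1, I2) i))]
      congr 1
      · apply prod_congr rfl
        intro i _
        rw [hE1 i.1 i.2]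
      · apply prod_congr rfl
        intro i _
        rw [hE2 i.1 i.2]
    rw [e1, e2, e3]
    ring
  · rintro ⟨S, hS, g, h, hx⟩
    refine ⟨S, fun j X => g j (fun i => X i.1), fun j X => h j (fun i => X i.1), hS, ?_, ?_, hx⟩
    · intro j X Y hXY
      show g j (fun i => X i.1) = g j (fun i => Y i.1)
      congr 1
      funext i
      exact hXY i.1 i.2
    · intro j X Y hXY
      show h j (fun i => X i.1) = h j (fun i => Y i.1)
      congr 1
      funext i
      exact hXY i.1 i.2

/-- Both notions of partition rank agree. -/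
theorem prank_eq_multilinear (A : Tensor F d ι) :
    prank A = sInf {r | MultilinearDecomp A r} := by
  unfold prank
  congr 1
  ext r
  exact decomp_iff_multilinear A r

end Pool.Agent.Lib.MP_a9d09b_co
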